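import Pool.Agent.Tame.Equiv
import Pool.Agent.TameB.CellsC

/-!
# Any two Cantor sets of the plane are equivalent by a homeomorphism of the plane
-/

set_option autoImplicit false

namespace Pool.Agent.Tame

open Set Topology Filter
open Pool.Agent.RAY (IsCantor)

theorem coverable_of_totDisc {K : Set ℂ} (hK : IsCompact K) (hd : IsTotallyDisconnected K) :
    Coverable K := fun _ hε => Pool.Agent.TameB.exists_cells_complex hK hd hε

/-- Any two Cantor sets of the plane are equivalent. -/
theorem exists_equiv {C C' : Set ℂ} (hC : IsCantor C) (hC' : IsCantor C') :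
    ∃ h : ℂ ≃ₜ ℂ, h '' C = C' :=
  exists_equiv_of_coverable (fun _ hC => coverable_of_totDisc hC.isCompact hC.totDisc) hC hC'

end Pool.Agent.Tame
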