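import Mathlib

/-!
# Brick tilings of the plane

Cells `c = (i, j)`, closed bricks `[2i + j, 2i + j + 2] x [j, j + 1]` scaled by `η`.
-/

set_option autoImplicit false

namespace Pool.Agent.Tame

open Set Topology

/-- The closed brick of the cell `c`. -/
def Bk (η : ℝ) (c : ℤ × ℤ) : Set ℂ :=
  {z | η * (2 * c.1 + c.2) ≤ z.re ∧ z.re ≤ η * (2 * c.1 + c.2 + 2) ∧
    η * c.2 ≤ z.im ∧ z.im ≤ η * (c.2 + 1)}

/-- Adjacent cells. -/
def Adj (c d : ℤ × ℤ) : Prop :=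
  (d.1 = c.1 + 1 ∧ d.2 = c.2) ∨ (d.1 = c.1 - 1 ∧ d.2 = c.2) ∨
  (d.1 = c.1 ∧ d.2 = c.2 + 1) ∨ (d.1 = c.1 ∧ d.2 = c.2 - 1) ∨
  (d.1 = c.1 - 1 ∧ d.2 = c.2 + 1) ∨ (d.1 = c.1 + 1 ∧ d.2 = c.2 - 1)

/-- Steps inside `F`. -/
def In (F : Set (ℤ × ℤ)) (c d : ℤ × ℤ) : Prop := Adj c d ∧ d ∈ F

/-- `F` is connected by steps. -/
def Conn (F : Set (ℤ × ℤ)) : Prop :=
  ∀ c ∈ F, ∀ d ∈ F, Relation.ReflTransGen (In F) c d

/-- The open set of the cell set `F`. -/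
def Vs (η : ℝ) (F : Set (ℤ × ℤ)) : Set ℂ := {z | ∀ c, z ∈ Bk η c → c ∈ F}

/-- Filled clusters. -/
structure PF (F : Set (ℤ × ℤ)) : Prop where
  fin : F.Finite
  ne : F.Nonempty
  conn : Conn F
  co : Conn Fᶜ

theorem Adj.symm {c d : ℤ × ℤ} (h : Adj c d) : Adj d c := by
  unfold Adj at *
  omega

theorem Adj.ne {c d : ℤ × ℤ} (h : Adj c d) : c ≠ d := by
  rintro rfl
  unfold Adj at h
  omega

theorem In.mono {F G : Set (ℤ × ℤ)} (h : F ⊆ G) {c d : ℤ × ℤ} (hcd : In F c d) : In G c d :=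
  ⟨hcd.1, h hcd.2⟩

/-- Chains can be reversed. -/
theorem chain_symm {F : Set (ℤ × ℤ)} {c d : ℤ × ℤ} (hc : c ∈ F)
    (h : Relation.ReflTransGen (In F) c d) : Relation.ReflTransGen (In F) d c := by
  induction h with
  | refl => exact .refl
  | @tail b d hb hbd ih =>
    refine Relation.ReflTransGen.head ⟨hbd.1.symm, ?_⟩ ih
    rcases Relation.ReflTransGen.cases_tail hb with h | ⟨e, -, he⟩
    · exact h ▸ hc
    · exact he.2

theorem chain_mem {F : Set (ℤ × ℤ)} {c d : ℤ × ℤ} (hc : c ∈ F)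
    (h : Relation.ReflTransGen (In F) c d) : d ∈ F := by
  rcases Relation.ReflTransGen.cases_tail h with h | ⟨e, -, he⟩
  · exact h ▸ hc
  · exact he.2

theorem conn_of_root {F : Set (ℤ × ℤ)} {r : ℤ × ℤ} (hr : r ∈ F)
    (h : ∀ c ∈ F, Relation.ReflTransGen (In F) r c) : Conn F := fun c hc d hd =>
  (chain_symm hr (h c hc)).trans (h d hd)

theorem Vs_inter (η : ℝ) (F G : Set (ℤ × ℤ)) : Vs η (F ∩ G) = Vs η F ∩ Vs η G := by
  ext z
  exact ⟨fun h => ⟨fun c hc => (h c hc).1, fun c hc => (h c hc).2⟩,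
    fun h c hc => ⟨h.1 c hc, h.2 c hc⟩⟩

theorem Vs_mono {η : ℝ} {F G : Set (ℤ × ℤ)} (h : F ⊆ G) : Vs η F ⊆ Vs η G :=
  fun _ hz c hc => h (hz c hc)

theorem compl_Vs (η : ℝ) (F : Set (ℤ × ℤ)) : (Vs η F)ᶜ = ⋃ c ∈ Fᶜ, Bk η c := by
  ext z
  simp only [Vs, mem_compl_iff, mem_ofPred_eq, mem_iUnion, not_forall, exists_prop]
  exact ⟨fun ⟨c, h1, h2⟩ => ⟨c, h2, h1⟩, fun ⟨c, h1, h2⟩ => ⟨c, h2, h1⟩⟩

/-- Each point lies in some brick. -/
theorem exists_mem_Bk {η : ℝ} (hη : 0 < η) (z : ℂ) : ∃ c, z ∈ Bk η c := by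
  set j : ℤ := ⌊z.im / η⌋ with hj
  set i : ℤ := ⌊(z.re / η - j) / 2⌋ with hi
  refine ⟨(i, j), ?_⟩
  have h1 := Int.floor_le (z.im / η)
  have h2 := Int.lt_floor_add_one (z.im / η)
  have h3 := Int.floor_le ((z.re / η - j) / 2)
  have h4 := Int.lt_floor_add_one ((z.re / η - j) / 2)
  rw [← hj] at h1 h2
  rw [← hi] at h3 h4
  have e1 : z.im = η * (z.im / η) := by field_simp
  have e2 : z.re = η * (z.re / η) := by field_simp
  refine ⟨?_, ?_, ?_, ?_⟩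
  · rw [e2]
    exact mul_le_mul_of_nonneg_left (by push_cast; linarith) hη.le
  · rw [e2]
    exact mul_le_mul_of_nonneg_left (by push_cast; linarith) hη.le
  · rw [e1]
    exact mul_le_mul_of_nonneg_left h1 hη.le
  · rw [e1]
    exact mul_le_mul_of_nonneg_left h2.le hη.le

/-- Bricks which meet are equal or adjacent. -/
theorem eq_or_adj {η : ℝ} (hη : 0 < η) {c d : ℤ × ℤ} {z : ℂ} (hc : z ∈ Bk η c) (hd : z ∈ Bk η d) :
    c = d ∨ Adj c d := by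
  obtain ⟨c1, c2, c3, c4⟩ := hc
  obtain ⟨d1, d2, d3, d4⟩ := hd
  have h1 : (2 * c.1 + c.2 : ℝ) ≤ 2 * d.1 + d.2 + 2 := le_of_mul_le_mul_left (c1.trans d2) hη
  have h2 : (2 * d.1 + d.2 : ℝ) ≤ 2 * c.1 + c.2 + 2 := le_of_mul_le_mul_left (d1.trans c2) hη
  have h3 : (c.2 : ℝ) ≤ d.2 + 1 := le_of_mul_le_mul_left (c3.trans d4) hη
  have h4 : (d.2 : ℝ) ≤ c.2 + 1 := le_of_mul_le_mul_left (d3.trans c4) hη
  have h1' : 2 * c.1 + c.2 ≤ 2 * d.1 + d.2 + 2 := by exact_mod_cast h1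
  have h2' : 2 * d.1 + d.2 ≤ 2 * c.1 + c.2 + 2 := by exact_mod_cast h2
  have h3' : c.2 ≤ d.2 + 1 := by exact_mod_cast h3
  have h4' : d.2 ≤ c.2 + 1 := by exact_mod_cast h4
  rw [Prod.ext_iff]
  unfold Adj
  omega

theorem convex_Bk (η : ℝ) (c : ℤ × ℤ) : Convex ℝ (Bk η c) := by
  have h : Bk η c = ({z : ℂ | η * (2 * c.1 + c.2) ≤ z.re} ∩ {z : ℂ | z.re ≤ η * (2 * c.1 + c.2 + 2)})
      ∩ ({z : ℂ | η * c.2 ≤ z.im} ∩ {z : ℂ | z.im ≤ η * (c.2 + 1)}) := by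
    ext z
    simp only [Bk, mem_ofPred_eq, mem_inter_iff]
    tauto
  rw [h]
  exact ((convex_halfSpace_re_ge _).inter (convex_halfSpace_re_le _)).inter
    ((convex_halfSpace_im_ge _).inter (convex_halfSpace_im_le _))

theorem isClosed_Bk (η : ℝ) (c : ℤ × ℤ) : IsClosed (Bk η c) := by
  have h : Bk η c = ({z : ℂ | η * (2 * c.1 + c.2) ≤ z.re} ∩ {z : ℂ | z.re ≤ η * (2 * c.1 + c.2 + 2)})
      ∩ ({z : ℂ | η * c.2 ≤ z.im} ∩ {z : ℂ | z.im ≤ η * (c.2 + 1)}) := by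
    ext z
    simp only [Bk, mem_ofPred_eq, mem_inter_iff]
    tauto
  rw [h]
  exact ((isClosed_le continuous_const Complex.continuous_re).inter
    (isClosed_le Complex.continuous_re continuous_const)).inter
    ((isClosed_le continuous_const Complex.continuous_im).inter
    (isClosed_le Complex.continuous_im continuous_const))

end Pool.Agent.Tame
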