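import Mathlib

/-!
# The door lemma

If the open horizontal segment `I` between two points of a connected set `W` lies in the open set
`V` disjoint from `W`, then the two sides of `I` cannot be joined in `V ∖ I`.
-/

set_option autoImplicit false

namespace Pool.Agent.Tame

open Set Topology Filter Complex

/-- Quotients `(z - a) / (z - b)` have continuous logarithms on sets far from the connected set
containing `a` and `b`. -/
theorem exists_log {W X : Set ℂ} (hW : IsPreconnected W) {d : ℝ} (hd : 0 < d)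
    (h : ∀ x ∈ X, ∀ w ∈ W, d ≤ dist x w) {a b : ℂ} (ha : a ∈ W) (hb : b ∈ W) :
    ∃ L : ℂ → ℂ, ContinuousOn L X ∧ ∀ z ∈ X, exp (L z) = (z - a) / (z - b) := by
  have hne : ∀ w ∈ W, ∀ z ∈ X, z - w ≠ 0 := by
    intro w hw z hz h0
    have := h z hz w hw
    rw [sub_eq_zero.1 h0, dist_self] at this
    linarith
  refine hW.induction₂ (fun a b => ∃ L : ℂ → ℂ, ContinuousOn L X ∧
    ∀ z ∈ X, exp (L z) = (z - a) / (z - b)) ?_ ?_ ?_ ha hb
  · intro w hw
    have hball : Metric.ball w d ∈ 𝓝[W] w := mem_nhdsWithin_of_mem_nhds (Metric.ball_mem_nhds w hd)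
    filter_upwards [hball, self_mem_nhdsWithin] with w' hw' hw'W
    have hslit : ∀ z ∈ X, (z - w) / (z - w') ∈ slitPlane := by
      intro z hz
      have h1 : (z - w) / (z - w') = 1 + (w' - w) / (z - w') := by
        field_simp [hne w' hw'W z hz]
        ring
      have h2 : ‖(w' - w) / (z - w')‖ < 1 := by
        rw [norm_div, div_lt_one (norm_pos_iff.2 (hne w' hw'W z hz))]
        calc ‖w' - w‖ = dist w' w := (dist_eq_norm _ _).symm
          _ < d := hw'
          _ ≤ dist z w' := h z hz w' hw'W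
          _ = ‖z - w'‖ := dist_eq_norm _ _
      left
      rw [h1, add_re, one_re]
      have := abs_re_le_norm ((w' - w) / (z - w'))
      have := (abs_le.1 this).1
      linarith
    refine ⟨fun z => log ((z - w) / (z - w')), ?_, fun z hz => ?_⟩
    · refine ContinuousOn.clog ?_ hslit
      exact (continuousOn_id.sub continuousOn_const).div (continuousOn_id.sub continuousOn_const)
        (fun z hz => hne w' hw'W z hz)
    · exact exp_log (slitPlane_ne_zero (hslit z hz))
  · rintro x y z hx hy hz ⟨L, hL, hL'⟩ ⟨M, hM, hM'⟩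
    refine ⟨fun t => L t + M t, hL.add hM, fun t ht => ?_⟩
    rw [exp_add, hL' t ht, hM' t ht]
    have := hne y hy t ht
    have := hne z hz t ht
    field_simp
  · rintro x y hx hy ⟨L, hL, hL'⟩
    refine ⟨fun t => -L t, hL.neg, fun t ht => ?_⟩
    rw [exp_neg, hL' t ht, inv_div]

/-- A continuous function with `exp f = 1` is constant. -/
theorem const_of_exp {S : Set ℝ} (hS : IsPreconnected S) {f : ℝ → ℂ} (hf : ContinuousOn f S)
    (h : ∀ t ∈ S, exp (f t) = 1) {x y : ℝ} (hx : x ∈ S) (hy : y ∈ S) : f x = f y := by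
  have hint : ∀ t ∈ S, ∃ n : ℤ, f t = n * (2 * Real.pi * I) := fun t ht =>
    exp_eq_one_iff.1 (h t ht)
  have him : ∀ t ∈ S, ∃ n : ℤ, (f t).im / (2 * Real.pi) = n ∧ f t = n * (2 * Real.pi * I) := by
    intro t ht
    obtain ⟨n, hn⟩ := hint t ht
    refine ⟨n, ?_, hn⟩
    rw [hn]
    have : ((n : ℂ) * (2 * Real.pi * I)).im = n * (2 * Real.pi) := by simp
    rw [this]
    field_simp
  have hg : ContinuousOn (fun t => (f t).im / (2 * Real.pi)) S :=
    (continuous_im.comp_continuousOn hf).div_const _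
  have key : ∀ x ∈ S, ∀ y ∈ S, ¬ (f x).im / (2 * Real.pi) < (f y).im / (2 * Real.pi) := by
    intro x hx y hy hlt
    obtain ⟨n, hn, -⟩ := him x hx
    obtain ⟨m, hm, -⟩ := him y hy
    rw [hn, hm] at hlt
    have hnm : n < m := by exact_mod_cast hlt
    have h1 : (n : ℝ) + 1 ≤ m := by exact_mod_cast hnm
    have h2 := hS.intermediate_value hx hy hg
    simp only [hn, hm] at h2
    obtain ⟨t, ht, htt⟩ := h2 (show (n : ℝ) + 1 / 2 ∈ Icc (n : ℝ) m from ⟨by linarith, by linarith⟩)
    obtain ⟨k, hk, -⟩ := him t ht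
    simp only at htt
    rw [hk] at htt
    have h3 : (n : ℝ) < k := by linarith
    have h4 : (k : ℝ) < n + 1 := by linarith
    have h5 : n < k := by exact_mod_cast h3
    have h6 : k < n + 1 := by exact_mod_cast h4
    omega
  obtain ⟨n, hn, hn'⟩ := him x hx
  obtain ⟨m, hm, hm'⟩ := him y hy
  have h1 := key x hx y hy
  have h2 := key y hy x hx
  rw [hn, hm] at h1 h2
  have h3 : (n : ℝ) = m := le_antisymm (not_lt.1 h2) (not_lt.1 h1)
  have h4 : n = m := by exact_mod_cast h3
  rw [hn', hm', h4]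

/-- **Door lemma.** -/
theorem door {V W : Set ℂ} (hV : IsOpen V) (hW : IsPreconnected W) (hVW : Disjoint V W)
    {a b y p e : ℝ} (hap : a < p) (hpb : p < b) (he : 0 < e) (ha : (⟨a, y⟩ : ℂ) ∈ W)
    (hb : (⟨b, y⟩ : ℂ) ∈ W) (hseg : ∀ t ∈ Icc (y - e) (y + e), (⟨p, t⟩ : ℂ) ∈ V)
    {γ : ℝ → ℂ} (hγ : ContinuousOn γ (Icc 0 1)) (hγV : ∀ t ∈ Icc (0 : ℝ) 1, γ t ∈ V)
    (h0 : γ 0 = ⟨p, y + e⟩) (h1 : γ 1 = ⟨p, y - e⟩)
    (hI : ∀ t ∈ Icc (0 : ℝ) 1, ¬ ((γ t).im = y ∧ a < (γ t).re ∧ (γ t).re < b)) : False := by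
  set a' : ℂ := ⟨a, y⟩ with ha'
  set b' : ℂ := ⟨b, y⟩ with hb'
  let σ : ℝ → ℂ := fun t => ⟨p, t⟩
  have hσ : Continuous σ := by
    have : σ = fun t : ℝ => (p : ℂ) + t * I := by
      funext t
      apply Complex.ext <;> simp [σ]
    rw [this]
    fun_prop
  set X : Set ℂ := γ '' Icc 0 1 ∪ σ '' Icc (y - e) (y + e) with hX
  have hXc : IsCompact X := (isCompact_Icc.image_of_continuousOn hγ).union
    (isCompact_Icc.image hσ)
  have hXV : X ⊆ V := by
    rintro _ (⟨t, ht, rfl⟩ | ⟨t, ht, rfl⟩)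
    · exact hγV t ht
    · exact hseg t ht
  -- distance to `W`
  obtain ⟨d, hd, hdW⟩ : ∃ d, 0 < d ∧ ∀ x ∈ X, ∀ w ∈ W, d ≤ dist x w := by
    have hdis : Disjoint X Vᶜ := disjoint_compl_right.mono_left hXV
    obtain ⟨d, hd, h⟩ := hdis.exists_thickenings hXc hV.isClosed_compl
    refine ⟨d, hd, fun x hx w hw => ?_⟩
    by_contra hcon
    push Not at hcon
    have h1 : x ∈ Metric.thickening d X := Metric.self_subset_thickening hd X hx
    have h2 : x ∈ Metric.thickening d Vᶜ := by
      rw [Metric.mem_thickening_iff]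
      exact ⟨w, fun hwV => hVW.le_bot ⟨hwV, hw⟩, hcon⟩
    exact h.le_bot ⟨h1, h2⟩
  obtain ⟨L, hL, hLexp⟩ := exists_log hW hd hdW ha hb
  have hnea : ∀ z ∈ X, z - a' ≠ 0 := by
    intro z hz h0
    exact hVW.le_bot ⟨hXV hz, by rw [sub_eq_zero.1 h0]; exact ha⟩
  have hneb : ∀ z ∈ X, z - b' ≠ 0 := by
    intro z hz h0
    exact hVW.le_bot ⟨hXV hz, by rw [sub_eq_zero.1 h0]; exact hb⟩
  let g : ℂ → ℂ := fun z => (z - a') / (z - b')
  have hg : ContinuousOn g X := (continuousOn_id.sub continuousOn_const).div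
    (continuousOn_id.sub continuousOn_const) hneb
  -- `g` is in the slit plane off the door
  have hslit : ∀ z ∈ X, ¬ (z.im = y ∧ a < z.re ∧ z.re < b) → g z ∈ slitPlane := by
    intro z hz hnI
    by_contra hns
    rw [mem_slitPlane_iff, not_or, not_lt, not_ne_iff] at hns
    obtain ⟨hre, him⟩ := hns
    have hgz : g z * (z - b') = z - a' := div_mul_cancel₀ _ (hneb z hz)
    have e1 := congrArg re hgz
    have e2 := congrArg im hgz
    rw [mul_re, him] at e1
    rw [mul_im, him] at e2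
    simp only [sub_re, sub_im, ha', hb', zero_mul, sub_zero, add_zero] at e1 e2
    have e3 : z.im = y := by
      have : ((g z).re - 1) * (z.im - y) = 0 := by linear_combination e2
      rcases mul_eq_zero.1 this with h | h
      · linarith
      · linarith
    have e4 : z.re ≠ a := by
      intro h
      apply hnea z hz
      apply Complex.ext <;> simp [ha', h, e3]
    have e5 : z.re ≠ b := by
      intro h
      apply hneb z hz
      apply Complex.ext <;> simp [hb', h, e3]
    apply hnI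
    refine ⟨e3, ?_, ?_⟩
    · rcases lt_trichotomy z.re a with h | h | h
      · nlinarith
      · exact absurd h e4
      · exact h
    · rcases lt_trichotomy z.re b with h | h | h
      · exact h
      · exact absurd h e5
      · nlinarith
  -- the difference of the two logarithms
  let D : ℂ → ℂ := fun z => L z - log (g z)
  have hDexp : ∀ z ∈ X, exp (D z) = 1 := by
    intro z hz
    have hgz : g z ≠ 0 := div_ne_zero (hnea z hz) (hneb z hz)
    rw [exp_sub, hLexp z hz, exp_log hgz]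
    exact div_self hgz
  have hDcont : ∀ S : Set ℂ, S ⊆ X → (∀ z ∈ S, g z ∈ slitPlane) → ContinuousOn D S :=
    fun S hS h => (hL.mono hS).sub ((hg.mono hS).clog h)
  -- on `γ`
  have hγX : ∀ t ∈ Icc (0 : ℝ) 1, γ t ∈ X := fun t ht => Or.inl ⟨t, ht, rfl⟩
  have hσX : ∀ t ∈ Icc (y - e) (y + e), σ t ∈ X := fun t ht => Or.inr ⟨t, ht, rfl⟩
  have hDγ : D (γ 0) = D (γ 1) := by
    refine const_of_exp (S := Icc 0 1) (f := fun t => D (γ t)) isPreconnected_Icc ?_
      (fun t ht => hDexp _ (hγX t ht)) ⟨le_rfl, zero_le_one⟩ ⟨zero_le_one, le_rfl⟩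
    refine (hDcont (γ '' Icc 0 1) subset_union_left ?_).comp hγ (fun t ht => ⟨t, ht, rfl⟩)
    rintro _ ⟨t, ht, rfl⟩
    exact hslit _ (hγX t ht) (hI t ht)
  -- on the two halves of the vertical segment
  have hup : ∀ t ∈ Ioc y (y + e), D (σ t) = D (γ 0) := by
    intro t ht
    have e0 : γ 0 = σ (y + e) := h0
    rw [e0]
    refine const_of_exp (S := Ioc y (y + e)) (f := fun t => D (σ t)) isPreconnected_Ioc ?_
      (fun t ht => hDexp _ (hσX t ⟨by linarith [ht.1], ht.2⟩)) ht ⟨by linarith, le_rfl⟩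
    refine (hDcont (σ '' Ioc y (y + e)) ?_ ?_).comp hσ.continuousOn (fun t ht => ⟨t, ht, rfl⟩)
    · rintro _ ⟨t, ht, rfl⟩
      exact hσX t ⟨by linarith [ht.1], ht.2⟩
    · rintro _ ⟨t, ht, rfl⟩
      refine hslit _ (hσX t ⟨by linarith [ht.1], ht.2⟩) ?_
      rintro ⟨h, -⟩
      have : t = y := h
      linarith [ht.1]
  have hdown : ∀ t ∈ Ico (y - e) y, D (σ t) = D (γ 1) := by
    intro t ht
    have e0 : γ 1 = σ (y - e) := h1
    rw [e0]
    refine const_of_exp (S := Ico (y - e) y) (f := fun t => D (σ t)) isPreconnected_Ico ?_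
      (fun t ht => hDexp _ (hσX t ⟨ht.1, by linarith [ht.2]⟩)) ht ⟨le_rfl, by linarith⟩
    refine (hDcont (σ '' Ico (y - e) y) ?_ ?_).comp hσ.continuousOn (fun t ht => ⟨t, ht, rfl⟩)
    · rintro _ ⟨t, ht, rfl⟩
      exact hσX t ⟨ht.1, by linarith [ht.2]⟩
    · rintro _ ⟨t, ht, rfl⟩
      refine hslit _ (hσX t ⟨ht.1, by linarith [ht.2]⟩) ?_
      rintro ⟨h, -⟩
      have : t = y := h
      linarith [ht.2]
  -- limits at the door
  have hyX : y ∈ Icc (y - e) (y + e) := ⟨by linarith, by linarith⟩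
  have hLσ : ContinuousOn (fun t => (L (σ t)).im) (Icc (y - e) (y + e)) :=
    continuous_im.comp_continuousOn (hL.comp hσ.continuousOn hσX)
  have hgσ : ContinuousOn (fun t => g (σ t)) (Icc (y - e) (y + e)) := hg.comp hσ.continuousOn hσX
  have hgp : (g (σ y)).re < 0 ∧ (g (σ y)).im = 0 := by
    have h2 : g (σ y) = (((p - a) / (p - b) : ℝ) : ℂ) := by
      have h3 : σ y - a' = ((p - a : ℝ) : ℂ) := by
        apply Complex.ext <;> simp [σ, ha']
      have h4 : σ y - b' = ((p - b : ℝ) : ℂ) := by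
        apply Complex.ext <;> simp [σ, hb']
      show (σ y - a') / (σ y - b') = _
      rw [h3, h4]
      push_cast
      rfl
    rw [h2, ofReal_re, ofReal_im]
    exact ⟨div_neg_of_pos_of_neg (by linarith) (by linarith), rfl⟩
  have hgim : ∀ t ∈ Icc (y - e) (y + e), (g (σ t)).im = (t - y) * (a - b) / ((p - b) ^ 2 + (t - y) ^ 2) := by
    intro t ht
    have hne := hneb _ (hσX t ht)
    have h3 : normSq (σ t - b') = (p - b) ^ 2 + (t - y) ^ 2 := by
      rw [normSq_apply]
      simp only [σ, hb', sub_re, sub_im]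
      ring
    have h4 : normSq (σ t - b') ≠ 0 := by
      rw [Ne, normSq_eq_zero]
      exact hne
    show ((σ t - a') / (σ t - b')).im = _
    rw [div_im, h3]
    rw [h3] at h4
    simp only [σ, ha', hb', sub_re, sub_im]
    field_simp
    ring
  have hpos : ∀ t : ℝ, 0 < (p - b) ^ 2 + (t - y) ^ 2 := by
    intro t
    have : 0 < (p - b) ^ 2 := by
      have : p - b ≠ 0 := by linarith
      positivity
    positivity
  have hlim_up : Tendsto (fun t => (log (g (σ t))).im) (𝓝[Ioc y (y + e)] y) (𝓝 (-Real.pi)) := by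
    simp only [log_im]
    refine (tendsto_arg_nhdsWithin_im_neg_of_re_neg_of_im_zero hgp.1 hgp.2).comp ?_
    rw [tendsto_nhdsWithin_iff]
    constructor
    · exact (hgσ y hyX).mono_left (nhdsWithin_mono _ fun t ht => ⟨by linarith [ht.1], ht.2⟩)
    · filter_upwards [self_mem_nhdsWithin] with t ht
      show (g (σ t)).im < 0
      rw [hgim t ⟨by linarith [ht.1], ht.2⟩]
      refine div_neg_of_neg_of_pos ?_ (hpos t)
      nlinarith [ht.1]
  have hlim_down : Tendsto (fun t => (log (g (σ t))).im) (𝓝[Ico (y - e) y] y) (𝓝 Real.pi) := by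
    simp only [log_im]
    have h2 := tendsto_arg_nhdsWithin_im_nonneg_of_re_neg_of_im_zero hgp.1 hgp.2
    refine h2.comp ?_
    rw [tendsto_nhdsWithin_iff]
    constructor
    · exact (hgσ y hyX).mono_left (nhdsWithin_mono _ fun t ht => ⟨ht.1, by linarith [ht.2]⟩)
    · filter_upwards [self_mem_nhdsWithin] with t ht
      show 0 ≤ (g (σ t)).im
      rw [hgim t ⟨ht.1, by linarith [ht.2]⟩]
      refine div_nonneg ?_ (hpos t).le
      nlinarith [ht.2]
  have hL_up : Tendsto (fun t => (L (σ t)).im) (𝓝[Ioc y (y + e)] y) (𝓝 (L (σ y)).im) :=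
    (hLσ y hyX).mono_left (nhdsWithin_mono _ fun t ht => ⟨by linarith [ht.1], ht.2⟩)
  have hL_down : Tendsto (fun t => (L (σ t)).im) (𝓝[Ico (y - e) y] y) (𝓝 (L (σ y)).im) :=
    (hLσ y hyX).mono_left (nhdsWithin_mono _ fun t ht => ⟨ht.1, by linarith [ht.2]⟩)
  have hne_up : (𝓝[Ioc y (y + e)] y).NeBot := by
    rw [nhdsWithin_Ioc_eq_nhdsGT (by linarith)]
    infer_instance
  have hne_down : (𝓝[Ico (y - e) y] y).NeBot := by
    rw [nhdsWithin_Ico_eq_nhdsLT (by linarith)]
    infer_instance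
  have c_up : (D (γ 0)).im = (L (σ y)).im + Real.pi := by
    have h2 := hL_up.sub hlim_up
    have h3 : Tendsto (fun t => (L (σ t)).im - (log (g (σ t))).im) (𝓝[Ioc y (y + e)] y)
        (𝓝 (D (γ 0)).im) := by
      refine tendsto_const_nhds.congr' ?_
      filter_upwards [self_mem_nhdsWithin] with t ht
      rw [← hup t ht]
      rfl
    have := tendsto_nhds_unique h3 h2
    linarith
  have c_down : (D (γ 1)).im = (L (σ y)).im - Real.pi := by
    have h2 := hL_down.sub hlim_down
    have h3 : Tendsto (fun t => (L (σ t)).im - (log (g (σ t))).im) (𝓝[Ico (y - e) y] y)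
        (𝓝 (D (γ 1)).im) := by
      refine tendsto_const_nhds.congr' ?_
      filter_upwards [self_mem_nhdsWithin] with t ht
      rw [← hdown t ht]
      rfl
    have := tendsto_nhds_unique h3 h2
    linarith
  rw [hDγ] at c_up
  linarith [Real.pi_pos]

end Pool.Agent.Tame
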