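import Mathlib

/-!
# Two Cantor sets in the real line are equivalent
-/

set_option autoImplicit false

namespace Pool.Agent.Tame

open Set Topology Filter

/-- A strictly monotone function on a dense set with dense image extends to an order isomorphism
of the real line. -/
theorem exists_orderIso_of_dense (D : Set ℝ) (hD : Dense D) (ψ : ℝ → ℝ)
    (hψ : StrictMonoOn ψ D) (hD' : Dense (ψ '' D)) :
    ∃ Φ : ℝ ≃o ℝ, ∀ d ∈ D, Φ d = ψ d := by
  have hne : ∀ x : ℝ, (ψ '' (D ∩ Iic x)).Nonempty := by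
    intro x
    obtain ⟨d, hd, hdx⟩ := hD.exists_lt x
    exact ⟨ψ d, d, ⟨hd, hdx.le⟩, rfl⟩
  have hbd : ∀ x : ℝ, BddAbove (ψ '' (D ∩ Iic x)) := by
    intro x
    obtain ⟨d, hd, hdx⟩ := hD.exists_gt x
    refine ⟨ψ d, ?_⟩
    rintro _ ⟨c, ⟨hc, hcx⟩, rfl⟩
    exact (hψ hc hd (lt_of_le_of_lt hcx hdx)).le
  set Φ : ℝ → ℝ := fun x => sSup (ψ '' (D ∩ Iic x)) with hΦ
  have hmono : Monotone Φ := fun x y hxy =>
    csSup_le_csSup (hbd y) (hne x) (image_mono (inter_subset_inter_right _ (Iic_subset_Iic.2 hxy)))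
  have hval : ∀ d ∈ D, Φ d = ψ d := by
    intro d hd
    apply IsGreatest.csSup_eq
    refine ⟨⟨d, ⟨hd, le_refl d⟩, rfl⟩, ?_⟩
    rintro _ ⟨c, ⟨hc, hcx⟩, rfl⟩
    exact hψ.monotoneOn hc hd hcx
  have hstrict : StrictMono Φ := by
    intro x y hxy
    obtain ⟨d, hd, h1, h2⟩ := hD.exists_between hxy
    obtain ⟨d', hd', h3, h4⟩ := hD.exists_between h2
    calc Φ x ≤ Φ d := hmono h1.le
      _ = ψ d := hval d hd
      _ < ψ d' := hψ hd hd' h3
      _ = Φ d' := (hval d' hd').symm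
      _ ≤ Φ y := hmono h4.le
  have hdense : DenseRange Φ := by
    refine hD'.mono ?_
    rintro _ ⟨d, hd, rfl⟩
    exact ⟨d, hval d hd⟩
  have hcont : Continuous Φ := hmono.continuous_of_denseRange hdense
  have hsurj : Function.Surjective Φ := by
    refine hcont.surjective ?_ ?_
    · refine tendsto_atTop_atTop_of_monotone hmono fun b => ?_
      obtain ⟨_, ⟨a, rfl⟩, h⟩ := hdense.exists_gt b
      exact ⟨a, h.le⟩
    · refine tendsto_atBot_atBot_of_monotone hmono fun b => ?_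
      obtain ⟨_, ⟨a, rfl⟩, h⟩ := hdense.exists_lt b
      exact ⟨a, h.le⟩
  exact ⟨hstrict.orderIsoOfSurjective Φ hsurj, fun d hd => hval d hd⟩

/-- Gluing of monotone pieces. -/
theorem exists_orderIso_of_pieces {ι : Type*} (I J : ι → Set ℝ) (α : ι → ℝ → ℝ)
    (hα : ∀ i, StrictMonoOn (α i) (I i)) (hJ : ∀ i, α i '' I i = J i)
    (hIJ : ∀ i j, i = j ∨ ((∀ x ∈ I i, ∀ y ∈ I j, x < y) ∧ (∀ x ∈ J i, ∀ y ∈ J j, x < y)) ∨
      ((∀ x ∈ I i, ∀ y ∈ I j, y < x) ∧ (∀ x ∈ J i, ∀ y ∈ J j, y < x)))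
    (hI : Dense (⋃ i, I i)) (hJd : Dense (⋃ i, J i)) :
    ∃ Φ : ℝ ≃o ℝ, Φ '' (⋃ i, I i) = ⋃ i, J i := by
  classical
  set ψ : ℝ → ℝ := fun x => if h : ∃ i, x ∈ I i then α h.choose x else 0 with hψ
  have hval : ∀ i, ∀ x ∈ I i, ψ x = α i x := by
    intro i x hx
    have h : ∃ i, x ∈ I i := ⟨i, hx⟩
    have h1 : ψ x = α h.choose x := dif_pos h
    rw [h1]
    rcases hIJ h.choose i with e | e | e
    · rw [e]
    · exact absurd (e.1 x h.choose_spec x hx) (lt_irrefl x)
    · exact absurd (e.1 x h.choose_spec x hx) (lt_irrefl x)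
  have hmem : ∀ i, ∀ x ∈ I i, ψ x ∈ J i := by
    intro i x hx
    rw [hval i x hx, ← hJ i]
    exact ⟨x, hx, rfl⟩
  have himg : ψ '' (⋃ i, I i) = ⋃ i, J i := by
    rw [image_iUnion]
    congr 1
    funext i
    rw [← hJ i]
    exact image_congr (hval i)
  have hmono : StrictMonoOn ψ (⋃ i, I i) := by
    intro x hx y hy hxy
    obtain ⟨i, hi⟩ := mem_iUnion.1 hx
    obtain ⟨j, hj⟩ := mem_iUnion.1 hy
    rcases hIJ i j with e | e | e
    · subst e
      rw [hval i x hi, hval i y hj]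
      exact hα i hi hj hxy
    · exact e.2 _ (hmem i x hi) _ (hmem j y hj)
    · exact absurd (e.1 x hi y hj) (not_lt.2 hxy.le)
  obtain ⟨Φ, hΦ⟩ := exists_orderIso_of_dense _ hI ψ hmono (himg ▸ hJd)
  exact ⟨Φ, by rw [← himg]; exact image_congr hΦ⟩

/-- A Cantor set in the real line. -/
structure CantorR (K : Set ℝ) : Prop where
  isCompact : IsCompact K
  nonempty : K.Nonempty
  preperfect : Preperfect K
  totDisc : IsTotallyDisconnected K

/-- A bounded complementary interval. -/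
def Gap (K : Set ℝ) : Type :=
  {g : ℝ × ℝ // g.1 ∈ K ∧ g.2 ∈ K ∧ g.1 < g.2 ∧ ∀ x ∈ Ioo g.1 g.2, x ∉ K}

namespace Gap

variable {K : Set ℝ}

/-- left endpoint -/
def l (g : Gap K) : ℝ := g.1.1

/-- right endpoint -/
def r (g : Gap K) : ℝ := g.1.2

theorem l_mem (g : Gap K) : g.l ∈ K := g.2.1

theorem r_mem (g : Gap K) : g.r ∈ K := g.2.2.1

theorem l_lt_r (g : Gap K) : g.l < g.r := g.2.2.2.1

theorem not_mem (g : Gap K) {x : ℝ} (h1 : g.l < x) (h2 : x < g.r) : x ∉ K := g.2.2.2.2 x ⟨h1, h2⟩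

theorem l_injective : Function.Injective (l : Gap K → ℝ) := by
  intro g h e
  apply Subtype.ext
  apply Prod.ext e
  show g.r = h.r
  rcases lt_trichotomy g.r h.r with e' | e' | e'
  · exact absurd g.r_mem (h.not_mem (e ▸ g.l_lt_r) e')
  · exact e'
  · exact absurd h.r_mem (g.not_mem (e ▸ h.l_lt_r) e')

noncomputable instance : LinearOrder (Gap K) := LinearOrder.lift' l l_injective

theorem lt_def {g h : Gap K} : g < h ↔ g.l < h.l := Iff.rfl

theorem r_le_l {g h : Gap K} (e : g < h) : g.r ≤ h.l := by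
  by_contra hn
  exact g.not_mem (lt_def.1 e) (not_le.1 hn) h.l_mem

theorem exists_of_notMem (hK : IsCompact K) {x u v : ℝ} (hx : x ∉ K) (hu : u ∈ K) (hux : u < x)
    (hv : v ∈ K) (hxv : x < v) : ∃ g : Gap K, g.l < x ∧ x < g.r := by
  have h1 : sSup (K ∩ Iic x) ∈ K ∩ Iic x :=
    (hK.inter_right isClosed_Iic).sSup_mem ⟨u, hu, hux.le⟩
  have h2 : sInf (K ∩ Ici x) ∈ K ∩ Ici x :=
    (hK.inter_right isClosed_Ici).sInf_mem ⟨v, hv, hxv.le⟩
  have h3 : sSup (K ∩ Iic x) < x := lt_of_le_of_ne h1.2 fun e => hx (e ▸ h1.1)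
  have h4 : x < sInf (K ∩ Ici x) := lt_of_le_of_ne h2.2 fun e => hx (e.symm ▸ h2.1)
  refine ⟨⟨(sSup (K ∩ Iic x), sInf (K ∩ Ici x)), h1.1, h2.1, h3.trans h4, ?_⟩, h3, h4⟩
  intro y hy hyK
  rcases le_total y x with e | e
  · exact absurd (le_csSup (hK.inter_right isClosed_Iic).bddAbove ⟨hyK, e⟩) (not_le.2 hy.1)
  · exact absurd (csInf_le (hK.inter_right isClosed_Ici).bddBelow ⟨hyK, e⟩) (not_le.2 hy.2)

theorem exists_between (hK : CantorR K) {u v : ℝ} (hu : u ∈ K) (hv : v ∈ K) (huv : u < v) :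
    ∃ g : Gap K, u ≤ g.l ∧ g.r ≤ v := by
  obtain ⟨x, hx, hxK⟩ : ∃ x ∈ Ioo u v, x ∉ K := by
    by_contra hn
    push Not at hn
    have h1 : Icc u v ⊆ K := by
      intro x hx
      rcases eq_or_lt_of_le hx.1 with e | e
      · exact e ▸ hu
      rcases eq_or_lt_of_le hx.2 with e' | e'
      · exact e' ▸ hv
      exact hn x ⟨e, e'⟩
    exact huv.ne (hK.totDisc _ h1 isPreconnected_Icc (left_mem_Icc.2 huv.le)
      (right_mem_Icc.2 huv.le))
  obtain ⟨g, h1, h2⟩ := exists_of_notMem hK.isCompact hxK hu hx.1 hv hx.2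
  refine ⟨g, ?_, ?_⟩
  · by_contra hn
    exact g.not_mem (not_le.1 hn) (hx.1.trans h2) hu
  · by_contra hn
    exact g.not_mem (h1.trans hx.2) (not_le.1 hn) hv

theorem exists_r_lt (hK : CantorR K) (g : Gap K) : ∃ v ∈ K, g.r < v := by
  obtain ⟨y, ⟨hy, hyK⟩, hne⟩ := accPt_iff_nhds.1 (hK.preperfect _ g.r_mem) (Ioi g.l)
    (Ioi_mem_nhds g.l_lt_r)
  refine ⟨y, hyK, lt_of_le_of_ne ?_ hne.symm⟩
  by_contra hn
  exact g.not_mem hy (not_le.1 hn) hyK

theorem exists_lt_l (hK : CantorR K) (g : Gap K) : ∃ v ∈ K, v < g.l := by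
  obtain ⟨y, ⟨hy, hyK⟩, hne⟩ := accPt_iff_nhds.1 (hK.preperfect _ g.l_mem) (Iio g.r)
    (Iio_mem_nhds g.l_lt_r)
  refine ⟨y, hyK, lt_of_le_of_ne ?_ hne⟩
  by_contra hn
  exact g.not_mem (not_le.1 hn) hy hyK

theorem r_lt_l (hK : CantorR K) {g h : Gap K} (e : g < h) : g.r < h.l := by
  refine lt_of_le_of_ne (r_le_l e) fun e' => ?_
  obtain ⟨y, ⟨hy, hyK⟩, hne⟩ := accPt_iff_nhds.1 (hK.preperfect _ g.r_mem) (Ioo g.l h.r)
    (Ioo_mem_nhds g.l_lt_r (e' ▸ h.l_lt_r))
  rcases lt_or_gt_of_ne hne with e1 | e1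
  · exact g.not_mem hy.1 e1 hyK
  · exact h.not_mem (e' ▸ e1) hy.2 hyK

instance : Countable (Gap K) := by
  choose q hq1 hq2 using fun g : Gap K => exists_rat_btwn g.l_lt_r
  refine Function.Injective.countable (f := q) fun g h e => ?_
  rcases lt_trichotomy g h with e' | e' | e'
  · have h1 := hq2 g
    have h2 := hq1 h
    rw [e] at h1
    exact absurd (h2.trans h1) (not_lt.2 (r_le_l e'))
  · exact e'
  · have h1 := hq2 h
    have h2 := hq1 g
    rw [← e] at h1
    exact absurd (h2.trans h1) (not_lt.2 (r_le_l e'))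

theorem nonempty_iso {K K' : Set ℝ} (hK : CantorR K) (hK' : CantorR K') :
    Nonempty (Gap K ≃o Gap K') := by
  have key : ∀ {K : Set ℝ}, CantorR K → DenselyOrdered (Gap K) ∧ NoMinOrder (Gap K) ∧
      NoMaxOrder (Gap K) ∧ Nonempty (Gap K) := by
    intro K hK
    refine ⟨⟨fun g h e => ?_⟩, ⟨fun g => ?_⟩, ⟨fun g => ?_⟩, ?_⟩
    · obtain ⟨k, h1, h2⟩ := exists_between hK g.r_mem h.l_mem (r_lt_l hK e)
      exact ⟨k, lt_def.2 (g.l_lt_r.trans_le h1), lt_def.2 (k.l_lt_r.trans_le h2)⟩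
    · obtain ⟨v, hv, hlt⟩ := exists_lt_l hK g
      obtain ⟨k, h1, h2⟩ := exists_between hK hv g.l_mem hlt
      exact ⟨k, lt_def.2 (k.l_lt_r.trans_le h2)⟩
    · obtain ⟨v, hv, hlt⟩ := exists_r_lt hK g
      obtain ⟨k, h1, h2⟩ := exists_between hK g.r_mem hv hlt
      exact ⟨k, lt_def.2 (g.l_lt_r.trans_le h1)⟩
    · obtain ⟨x, hx⟩ := hK.nonempty
      obtain ⟨y, ⟨-, hyK⟩, hne⟩ := accPt_iff_nhds.1 (hK.preperfect _ hx) univ univ_mem
      rcases lt_or_gt_of_ne hne with e | e
      · obtain ⟨k, -⟩ := exists_between hK hyK hx e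
        exact ⟨k⟩
      · obtain ⟨k, -⟩ := exists_between hK hx hyK e
        exact ⟨k⟩
  obtain ⟨a1, a2, a3, a4⟩ := key hK
  obtain ⟨b1, b2, b3, b4⟩ := key hK'
  exact Order.iso_of_countable_dense _ _

end Gap

/-- The complementary intervals: the bounded ones, the left one, and the right one. -/
noncomputable def pieces (K : Set ℝ) : Gap K ⊕ Bool → Set ℝ
  | Sum.inl g => Ioo g.l g.r
  | Sum.inr false => Iio (sInf K)
  | Sum.inr true => Ioi (sSup K)

theorem CantorR.sInf_mem {K : Set ℝ} (hK : CantorR K) : sInf K ∈ K :=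
  hK.isCompact.sInf_mem hK.nonempty

theorem CantorR.sSup_mem {K : Set ℝ} (hK : CantorR K) : sSup K ∈ K :=
  hK.isCompact.sSup_mem hK.nonempty

theorem CantorR.sInf_le {K : Set ℝ} (hK : CantorR K) {x : ℝ} (hx : x ∈ K) : sInf K ≤ x :=
  csInf_le hK.isCompact.bddBelow hx

theorem CantorR.le_sSup {K : Set ℝ} (hK : CantorR K) {x : ℝ} (hx : x ∈ K) : x ≤ sSup K :=
  le_csSup hK.isCompact.bddAbove hx

theorem iUnion_pieces {K : Set ℝ} (hK : CantorR K) : (⋃ i, pieces K i) = Kᶜ := by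
  ext x
  simp only [mem_iUnion, mem_compl_iff]
  constructor
  · rintro ⟨g | b, hx⟩
    · exact g.not_mem hx.1 hx.2
    · cases b with
      | false => exact fun hxK => absurd (hK.sInf_le hxK) (not_le.2 hx)
      | true => exact fun hxK => absurd (hK.le_sSup hxK) (not_le.2 hx)
  · intro hx
    rcases lt_or_ge x (sInf K) with e | e
    · exact ⟨Sum.inr false, e⟩
    rcases lt_or_ge (sSup K) x with e' | e'
    · exact ⟨Sum.inr true, e'⟩
    obtain ⟨g, hg1, hg2⟩ := Gap.exists_of_notMem hK.isCompact hx hK.sInf_mem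
      (lt_of_le_of_ne e fun h => hx (h ▸ hK.sInf_mem)) hK.sSup_mem
      (lt_of_le_of_ne e' fun h => hx (h ▸ hK.sSup_mem))
    exact ⟨Sum.inl g, hg1, hg2⟩

theorem CantorR.dense_compl {K : Set ℝ} (hK : CantorR K) : Dense (Kᶜ) := by
  rw [dense_iff_inter_open]
  intro U hU ⟨x, hx⟩
  by_contra hn
  rw [Set.not_nonempty_iff_eq_empty, ← Set.disjoint_iff_inter_eq_empty,
    Set.disjoint_compl_right_iff_subset] at hn
  obtain ⟨e, he, hb⟩ := Metric.isOpen_iff.1 hU x hx
  have h1 := hK.totDisc _ (hb.trans hn)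
    (by rw [Real.ball_eq_Ioo]; exact isPreconnected_Ioo)
  have h2 : x + e / 2 ∈ Metric.ball x e := by
    rw [Metric.mem_ball, Real.dist_eq]
    rw [add_sub_cancel_left, abs_of_pos (by linarith)]
    linarith
  have h3 := h1 h2 (Metric.mem_ball_self he)
  linarith

/-- The piecewise map. -/
noncomputable def pieceMap {K K' : Set ℝ} (e : Gap K ≃o Gap K') : Gap K ⊕ Bool → ℝ → ℝ
  | Sum.inl g => fun x => (e g).l + (x - g.l) * (((e g).r - (e g).l) / (g.r - g.l))
  | Sum.inr false => fun x => x - sInf K + sInf K'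
  | Sum.inr true => fun x => x - sSup K + sSup K'

/-- The target pieces. -/
noncomputable def pieces' {K K' : Set ℝ} (e : Gap K ≃o Gap K') : Gap K ⊕ Bool → Set ℝ
  | Sum.inl g => Ioo (e g).l (e g).r
  | Sum.inr false => Iio (sInf K')
  | Sum.inr true => Ioi (sSup K')

theorem iUnion_pieces' {K K' : Set ℝ} (hK' : CantorR K') (e : Gap K ≃o Gap K') :
    (⋃ i, pieces' e i) = K'ᶜ := by
  rw [← iUnion_pieces hK']
  ext x
  simp only [mem_iUnion]
  constructor
  · rintro ⟨g | b, hx⟩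
    · exact ⟨Sum.inl (e g), hx⟩
    · cases b with
      | false => exact ⟨Sum.inr false, hx⟩
      | true => exact ⟨Sum.inr true, hx⟩
  · rintro ⟨g | b, hx⟩
    · refine ⟨Sum.inl (e.symm g), ?_⟩
      show x ∈ Ioo (e (e.symm g)).l (e (e.symm g)).r
      rw [e.apply_symm_apply]
      exact hx
    · cases b with
      | false => exact ⟨Sum.inr false, hx⟩
      | true => exact ⟨Sum.inr true, hx⟩

/-- Two Cantor sets of the real line are equivalent by an order isomorphism. -/
theorem exists_orderIso_cantor {K K' : Set ℝ} (hK : CantorR K) (hK' : CantorR K') :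
    ∃ Φ : ℝ ≃o ℝ, Φ '' K = K' := by
  obtain ⟨e⟩ := Gap.nonempty_iso hK hK'
  have hmono : ∀ i, StrictMonoOn (pieceMap e i) (pieces K i) := by
    rintro (g | b)
    · intro x _ y _ hxy
      have h1 : 0 < ((e g).r - (e g).l) / (g.r - g.l) :=
        div_pos (sub_pos.2 (e g).l_lt_r) (sub_pos.2 g.l_lt_r)
      show (e g).l + (x - g.l) * _ < (e g).l + (y - g.l) * _
      nlinarith
    · cases b with
      | false =>
        intro x _ y _ hxy
        show x - sInf K + sInf K' < y - sInf K + sInf K'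
        linarith
      | true =>
        intro x _ y _ hxy
        show x - sSup K + sSup K' < y - sSup K + sSup K'
        linarith
  have himg : ∀ i, pieceMap e i '' pieces K i = pieces' e i := by
    rintro (g | b)
    · have h1 : 0 < (e g).r - (e g).l := sub_pos.2 (e g).l_lt_r
      have h2 : 0 < g.r - g.l := sub_pos.2 g.l_lt_r
      ext y
      constructor
      · rintro ⟨x, ⟨hx1, hx2⟩, rfl⟩
        show (e g).l + (x - g.l) * _ ∈ Ioo (e g).l (e g).r
        have h3 : 0 < (x - g.l) * (((e g).r - (e g).l) / (g.r - g.l)) :=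
          mul_pos (sub_pos.2 hx1) (div_pos h1 h2)
        have h4 : (x - g.l) * (((e g).r - (e g).l) / (g.r - g.l)) < (e g).r - (e g).l := by
          rw [mul_div_assoc', div_lt_iff₀ h2]
          nlinarith
        constructor <;> linarith
      · rintro ⟨hy1, hy2⟩
        refine ⟨g.l + (y - (e g).l) * ((g.r - g.l) / ((e g).r - (e g).l)), ⟨?_, ?_⟩, ?_⟩
        · have : 0 < (y - (e g).l) * ((g.r - g.l) / ((e g).r - (e g).l)) :=
            mul_pos (sub_pos.2 hy1) (div_pos h2 h1)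
          linarith
        · have : (y - (e g).l) * ((g.r - g.l) / ((e g).r - (e g).l)) < g.r - g.l := by
            rw [mul_div_assoc', div_lt_iff₀ h1]
            nlinarith
          linarith
        · show (e g).l + (g.l + (y - (e g).l) * ((g.r - g.l) / ((e g).r - (e g).l)) - g.l) *
            (((e g).r - (e g).l) / (g.r - g.l)) = y
          field_simp
          ring
    · cases b with
      | false =>
        ext y
        constructor
        · rintro ⟨x, hx, rfl⟩
          have : x < sInf K := hx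
          show x - sInf K + sInf K' < sInf K'
          linarith
        · intro hy
          have : y < sInf K' := hy
          refine ⟨y - sInf K' + sInf K, ?_, ?_⟩
          · show y - sInf K' + sInf K < sInf K
            linarith
          · show y - sInf K' + sInf K - sInf K + sInf K' = y
            ring
      | true =>
        ext y
        constructor
        · rintro ⟨x, hx, rfl⟩
          have : sSup K < x := hx
          show sSup K' < x - sSup K + sSup K'
          linarith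
        · intro hy
          have : sSup K' < y := hy
          refine ⟨y - sSup K' + sSup K, ?_, ?_⟩
          · show sSup K < y - sSup K' + sSup K
            linarith
          · show y - sSup K' + sSup K - sSup K + sSup K' = y
            ring
  have hor : ∀ i j, i = j ∨
      ((∀ x ∈ pieces K i, ∀ y ∈ pieces K j, x < y) ∧
        (∀ x ∈ pieces' e i, ∀ y ∈ pieces' e j, x < y)) ∨
      ((∀ x ∈ pieces K i, ∀ y ∈ pieces K j, y < x) ∧
        (∀ x ∈ pieces' e i, ∀ y ∈ pieces' e j, y < x)) := by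
    have hl : ∀ {K : Set ℝ} (hK : CantorR K) (g : Gap K), sInf K ≤ g.l := fun hK g =>
      hK.sInf_le g.l_mem
    have hr : ∀ {K : Set ℝ} (hK : CantorR K) (g : Gap K), g.r ≤ sSup K := fun hK g =>
      hK.le_sSup g.r_mem
    have hm : sInf K ≤ sSup K := hK.le_sSup hK.sInf_mem
    have hm' : sInf K' ≤ sSup K' := hK'.le_sSup hK'.sInf_mem
    rintro (g | b) (g' | b')
    · rcases lt_trichotomy g g' with h | h | h
      · exact Or.inr (Or.inl ⟨fun x hx y hy => hx.2.trans ((Gap.r_lt_l hK h).trans hy.1),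
          fun x hx y hy => hx.2.trans ((Gap.r_lt_l hK' (e.lt_iff_lt.2 h)).trans hy.1)⟩)
      · exact Or.inl (congrArg _ h)
      · exact Or.inr (Or.inr ⟨fun x hx y hy => hy.2.trans ((Gap.r_lt_l hK h).trans hx.1),
          fun x hx y hy => hy.2.trans ((Gap.r_lt_l hK' (e.lt_iff_lt.2 h)).trans hx.1)⟩)
    · cases b' with
      | false =>
        exact Or.inr (Or.inr ⟨fun x hx y hy => lt_of_lt_of_le hy ((hl hK g).trans hx.1.le),
          fun x hx y hy => lt_of_lt_of_le hy ((hl hK' (e g)).trans hx.1.le)⟩)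
      | true =>
        exact Or.inr (Or.inl ⟨fun x hx y hy => lt_of_le_of_lt (hx.2.le.trans (hr hK g)) hy,
          fun x hx y hy => lt_of_le_of_lt (hx.2.le.trans (hr hK' (e g))) hy⟩)
    · cases b with
      | false =>
        exact Or.inr (Or.inl ⟨fun x hx y hy => lt_of_lt_of_le hx ((hl hK g').trans hy.1.le),
          fun x hx y hy => lt_of_lt_of_le hx ((hl hK' (e g')).trans hy.1.le)⟩)
      | true =>
        exact Or.inr (Or.inr ⟨fun x hx y hy => lt_of_le_of_lt (hy.2.le.trans (hr hK g')) hx,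
          fun x hx y hy => lt_of_le_of_lt (hy.2.le.trans (hr hK' (e g'))) hx⟩)
    · cases b with
      | false =>
        cases b' with
        | false => exact Or.inl rfl
        | true =>
          exact Or.inr (Or.inl ⟨fun x hx y hy => lt_of_lt_of_le hx (hm.trans (le_of_lt hy)),
            fun x hx y hy => lt_of_lt_of_le hx (hm'.trans (le_of_lt hy))⟩)
      | true =>
        cases b' with
        | false =>
          exact Or.inr (Or.inr ⟨fun x hx y hy => lt_of_lt_of_le hy (hm.trans (le_of_lt hx)),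
            fun x hx y hy => lt_of_lt_of_le hy (hm'.trans (le_of_lt hx))⟩)
        | true => exact Or.inl rfl
  obtain ⟨Φ, hΦ⟩ := exists_orderIso_of_pieces (pieces K) (pieces' e) (pieceMap e) hmono himg hor
    (by rw [iUnion_pieces hK]; exact hK.dense_compl)
    (by rw [iUnion_pieces' hK' e]; exact hK'.dense_compl)
  refine ⟨Φ, ?_⟩
  rw [iUnion_pieces hK, iUnion_pieces' hK' e, Set.image_compl_eq Φ.bijective] at hΦ
  exact compl_injective hΦ

end Pool.Agent.Tame
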