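import Pool.Agent.Tame.Line
import Pool.Agent.Tame.LineEq
import Pool.Agent.RAY.Defs

/-!
# Any two Cantor sets of the plane are equivalent, given coverings by squeezable sets
-/

set_option autoImplicit false

namespace Pool.Agent.Tame

open Set Topology Filter
open Pool.Agent.RAY (IsCantor)

theorem isCantor_image {C : Set ℂ} (hC : IsCantor C) (G : ℂ ≃ₜ ℂ) : IsCantor (G '' C) where
  isCompact := hC.isCompact.image G.continuous
  nonempty := hC.nonempty.image _
  preperfect := by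
    rintro _ ⟨x, hx, rfl⟩
    rw [accPt_iff_nhds]
    intro U hU
    obtain ⟨y, ⟨hy, hyC⟩, hne⟩ := accPt_iff_nhds.1 (hC.preperfect _ hx) (G ⁻¹' U)
      (G.continuous.continuousAt hU)
    exact ⟨G y, ⟨hy, y, hyC, rfl⟩, fun e => hne (G.injective e)⟩
  totDisc := by
    intro S hS hc
    have h1 : (G.symm '' S).Subsingleton := by
      refine hC.totDisc _ ?_ (hc.image _ G.symm.continuous.continuousOn)
      rintro _ ⟨y, hy, rfl⟩
      obtain ⟨z, hz, rfl⟩ := hS hy
      simpa using hz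
    intro x hx y hy
    exact G.symm.injective (h1 ⟨x, hx, rfl⟩ ⟨y, hy, rfl⟩)

theorem cantorR_of_line {C : Set ℂ} (hC : IsCantor C) (h0 : ∀ z ∈ C, z.im = 0) :
    CantorR {x : ℝ | (x : ℂ) ∈ C} := by
  have hre : ∀ z ∈ C, ((z.re : ℝ) : ℂ) = z := fun z hz => Complex.ext rfl (h0 z hz).symm
  have himg : {x : ℝ | (x : ℂ) ∈ C} = Complex.re '' C := by
    ext x
    constructor
    · intro hx
      exact ⟨x, hx, rfl⟩
    · rintro ⟨z, hz, rfl⟩
      show ((z.re : ℝ) : ℂ) ∈ C
      rw [hre z hz]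
      exact hz
  refine ⟨?_, ?_, ?_, ?_⟩
  · rw [himg]
    exact hC.isCompact.image Complex.continuous_re
  · rw [himg]
    exact hC.nonempty.image _
  · intro x hx
    rw [accPt_iff_nhds]
    intro U hU
    obtain ⟨y, ⟨hy, hyC⟩, hne⟩ := accPt_iff_nhds.1 (hC.preperfect _ hx) (Complex.re ⁻¹' U)
      (Complex.continuous_re.continuousAt hU)
    refine ⟨y.re, ⟨hy, ?_⟩, fun e => hne ?_⟩
    · show ((y.re : ℝ) : ℂ) ∈ C
      rw [hre y hyC]
      exact hyC
    · rw [← hre y hyC, e]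
  · intro S hS hc
    have h1 : ((fun x : ℝ => (x : ℂ)) '' S).Subsingleton := by
      refine hC.totDisc _ ?_ (hc.image _ Complex.continuous_ofReal.continuousOn)
      rintro _ ⟨y, hy, rfl⟩
      exact hS hy
    intro x hx y hy
    exact Complex.ofReal_injective (h1 ⟨x, hx, rfl⟩ ⟨y, hy, rfl⟩)

/-- The product of an order isomorphism of the real line with the identity. -/
noncomputable def planeMap (Φ : ℝ ≃o ℝ) : ℂ ≃ₜ ℂ where
  toFun z := (Φ z.re : ℂ) + z.im * Complex.I
  invFun z := (Φ.symm z.re : ℂ) + z.im * Complex.I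
  left_inv z := by
    apply Complex.ext <;> simp
  right_inv z := by
    apply Complex.ext <;> simp
  continuous_toFun := by
    have := Φ.continuous
    fun_prop
  continuous_invFun := by
    have := Φ.symm.continuous
    fun_prop

theorem planeMap_ofReal (Φ : ℝ ≃o ℝ) (x : ℝ) : planeMap Φ (x : ℂ) = (Φ x : ℂ) := by
  show (Φ (x : ℂ).re : ℂ) + (x : ℂ).im * Complex.I = _
  simp

/-- Cantor sets that are equivalent to subsets of the real line are equivalent. -/
theorem exists_equiv_of_lines {C C' : Set ℂ} (hC : IsCantor C) (hC' : IsCantor C')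
    (hl : ∃ G : ℂ ≃ₜ ℂ, ∀ z ∈ C, (G z).im = 0) (hl' : ∃ G : ℂ ≃ₜ ℂ, ∀ z ∈ C', (G z).im = 0) :
    ∃ h : ℂ ≃ₜ ℂ, h '' C = C' := by
  obtain ⟨G, hG⟩ := hl
  obtain ⟨G', hG'⟩ := hl'
  have h1 : ∀ z ∈ G '' C, z.im = 0 := by
    rintro _ ⟨z, hz, rfl⟩
    exact hG z hz
  have h1' : ∀ z ∈ G' '' C', z.im = 0 := by
    rintro _ ⟨z, hz, rfl⟩
    exact hG' z hz
  obtain ⟨Φ, hΦ⟩ := exists_orderIso_cantor (cantorR_of_line (isCantor_image hC G) h1)
    (cantorR_of_line (isCantor_image hC' G') h1')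
  have hre : ∀ z : ℂ, z.im = 0 → ((z.re : ℝ) : ℂ) = z := fun z hz => Complex.ext rfl hz.symm
  have key : planeMap Φ '' (G '' C) = G' '' C' := by
    ext w
    constructor
    · rintro ⟨z, hz, rfl⟩
      have e := hre z (h1 z hz)
      have h2 : Φ z.re ∈ {x : ℝ | (x : ℂ) ∈ G' '' C'} := by
        rw [← hΦ]
        exact ⟨z.re, by show ((z.re : ℝ) : ℂ) ∈ G '' C; rw [e]; exact hz, rfl⟩
      rw [← e, planeMap_ofReal]
      exact h2
    · intro hw
      have e := hre w (h1' w hw)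
      have h2 : w.re ∈ Φ '' {x : ℝ | (x : ℂ) ∈ G '' C} := by
        rw [hΦ]
        show ((w.re : ℝ) : ℂ) ∈ G' '' C'
        rw [e]
        exact hw
      obtain ⟨x, hx, hxw⟩ := h2
      exact ⟨(x : ℂ), hx, by rw [planeMap_ofReal, hxw, e]⟩
  refine ⟨(G.trans (planeMap Φ)).trans G'.symm, ?_⟩
  have : ((G.trans (planeMap Φ)).trans G'.symm : ℂ → ℂ) = G'.symm ∘ (planeMap Φ ∘ G) := rfl
  rw [this, Set.image_comp, Set.image_comp, key, ← Set.image_comp]
  simp

/-- Any two Cantor sets of the plane are equivalent, given coverings by squeezable sets. -/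
theorem exists_equiv_of_coverable
    (hcov : ∀ C : Set ℂ, IsCantor C → Coverable C) {C C' : Set ℂ} (hC : IsCantor C)
    (hC' : IsCantor C') : ∃ h : ℂ ≃ₜ ℂ, h '' C = C' := by
  have key : ∀ C : Set ℂ, IsCantor C → ∃ G : ℂ ≃ₜ ℂ, ∀ z ∈ C, (G z).im = 0 := by
    intro C hC
    obtain ⟨H, hH⟩ := exists_re_injOn hC.isCompact fun H => hcov _ (isCantor_image hC H)
    exact exists_line hC.isCompact H hH
  exact exists_equiv_of_lines hC hC' (key C hC) (key C' hC')

end Pool.Agent.Tame
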