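import Pool.Agent.Tame.Runs
import Pool.Agent.Tame.Door

/-!
# Geometry of the brick domains
-/

set_option autoImplicit false

namespace Pool.Agent.Tame

open Set Topology

theorem int_le {a b : ℤ} (h : (a : ℝ) < b + 1) : a ≤ b := by
  have : a < b + 1 := by exact_mod_cast h
  omega

theorem mem_Bk {η : ℝ} (hη : 0 < η) (c : ℤ × ℤ) (z : ℂ) : z ∈ Bk η c ↔
    2 * (c.1 : ℝ) + c.2 ≤ z.re / η ∧ z.re / η ≤ 2 * c.1 + c.2 + 2 ∧ (c.2 : ℝ) ≤ z.im / η ∧
      z.im / η ≤ c.2 + 1 := by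
  unfold Bk
  simp only [mem_ofPred_eq]
  rw [le_div_iff₀ hη, div_le_iff₀ hη, le_div_iff₀ hη, div_le_iff₀ hη]
  simp only [mul_comm η]

theorem locallyFinite_Bk {η : ℝ} (hη : 0 < η) : LocallyFinite (Bk η) := by
  intro z
  refine ⟨Metric.ball z η, Metric.ball_mem_nhds z hη, ?_⟩
  set n : ℤ := ⌊z.re / η⌋ with hn
  set m : ℤ := ⌊z.im / η⌋ with hm
  refine Set.Finite.subset ((Set.finite_Icc (-(|n| + |m| + 9)) (|n| + |m| + 9)).prod
    (Set.finite_Icc (m - 3) (m + 3))) ?_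
  rintro c ⟨w, hw, hwz⟩
  rw [mem_Bk hη] at hw
  obtain ⟨h1, h2, h3, h4⟩ := hw
  rw [Metric.mem_ball, dist_eq_norm] at hwz
  have h5 : |w.re - z.re| < η := (Complex.abs_re_le_norm (w - z)).trans_lt hwz
  have h6 : |w.im - z.im| < η := (Complex.abs_im_le_norm (w - z)).trans_lt hwz
  have h5' : |w.re / η - z.re / η| < 1 := by
    rw [← sub_div, abs_div, abs_of_pos hη, div_lt_one hη]
    exact h5
  have h6' : |w.im / η - z.im / η| < 1 := by
    rw [← sub_div, abs_div, abs_of_pos hη, div_lt_one hη]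
    exact h6
  rw [abs_lt] at h5' h6'
  have f1 := Int.floor_le (z.re / η)
  have f2 := Int.lt_floor_add_one (z.re / η)
  have f3 := Int.floor_le (z.im / η)
  have f4 := Int.lt_floor_add_one (z.im / η)
  rw [← hn] at f1 f2
  rw [← hm] at f3 f4
  have g1 : c.2 ≤ m + 3 := int_le (by push_cast; linarith)
  have g2 : m - 3 ≤ c.2 := int_le (by push_cast; linarith)
  have g3 : 2 * c.1 + c.2 ≤ n + 3 := int_le (by push_cast; linarith)
  have g4 : n - 5 ≤ 2 * c.1 + c.2 := int_le (by push_cast; linarith)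
  have a1 := neg_abs_le n
  have a2 := le_abs_self n
  have a3 := neg_abs_le m
  have a4 := le_abs_self m
  refine ⟨⟨?_, ?_⟩, ⟨g2, g1⟩⟩ <;> omega

theorem isOpen_Vs {η : ℝ} (hη : 0 < η) (F : Set (ℤ × ℤ)) : IsOpen (Vs η F) := by
  rw [← isClosed_compl_iff, compl_Vs, biUnion_eq_iUnion]
  exact ((locallyFinite_Bk hη).comp_injective Subtype.val_injective).isClosed_iUnion
    fun c => isClosed_Bk η c

/-- Centres of bricks. -/
noncomputable def ctr (η : ℝ) (c : ℤ × ℤ) : ℂ := ⟨η * (2 * c.1 + c.2 + 1), η * (c.2 + 1 / 2)⟩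

theorem inter_Bk_nonempty {η : ℝ} (hη : 0 < η) {c d : ℤ × ℤ} (h : Adj c d) :
    (Bk η c ∩ Bk η d).Nonempty := by
  refine ⟨⟨η * ((2 * c.1 + c.2 + 1 + (2 * d.1 + d.2 + 1)) / 2),
    η * ((c.2 + 1 / 2 + (d.2 + 1 / 2)) / 2)⟩, ?_⟩
  rw [mem_inter_iff, mem_Bk hη, mem_Bk hη]
  simp only [mul_div_cancel_left₀ _ hη.ne']
  have key : (2 * c.1 + c.2 ≤ 2 * d.1 + d.2 + 2 ∧ 2 * d.1 + d.2 ≤ 2 * c.1 + c.2 + 2) ∧
      (c.2 ≤ d.2 + 1 ∧ d.2 ≤ c.2 + 1) := by
    unfold Adj at h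
    omega
  obtain ⟨⟨k1, k2⟩, k3, k4⟩ := key
  have k1' : (2 * c.1 + c.2 : ℝ) ≤ 2 * d.1 + d.2 + 2 := by exact_mod_cast k1
  have k2' : (2 * d.1 + d.2 : ℝ) ≤ 2 * c.1 + c.2 + 2 := by exact_mod_cast k2
  have k3' : (c.2 : ℝ) ≤ d.2 + 1 := by exact_mod_cast k3
  have k4' : (d.2 : ℝ) ≤ c.2 + 1 := by exact_mod_cast k4
  refine ⟨⟨?_, ?_, ?_, ?_⟩, ?_, ?_, ?_, ?_⟩ <;> linarith

/-- The complement of a brick domain is connected. -/
theorem isPreconnected_compl_Vs {η : ℝ} (hη : 0 < η) {F : Set (ℤ × ℤ)} (h : Conn Fᶜ) :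
    IsPreconnected (Vs η F)ᶜ := by
  rw [compl_Vs]
  refine IsPreconnected.biUnion_of_reflTransGen (fun c _ => (convex_Bk η c).isPreconnected) ?_
  intro c hc d hd
  refine Relation.ReflTransGen.mono ?_ _ _ (chain_both hc (h c hc d hd))
  rintro a b ⟨h1, h2, -⟩
  exact ⟨inter_Bk_nonempty hη h1, h2⟩

/-- Bricks through the segment of two adjacent centres. -/
theorem segment_Bk {η : ℝ} (hη : 0 < η) {c d e : ℤ × ℤ} (h : Adj c d) {z : ℂ}
    (hz : z ∈ segment ℝ (ctr η c) (ctr η d)) (he : z ∈ Bk η e) : e = c ∨ e = d := by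
  wlog hcd : c.2 < d.2 ∨ (c.2 = d.2 ∧ c.1 < d.1) generalizing c d
  · have hcd' : d.2 < c.2 ∨ (d.2 = c.2 ∧ d.1 < c.1) := by
      unfold Adj at h
      omega
    exact (this h.symm (by rwa [segment_symm]) hcd').symm
  rw [segment_eq_image] at hz
  obtain ⟨t, ⟨ht0, ht1⟩, rfl⟩ := hz
  rw [mem_Bk hη] at he
  have e1 : ((1 - t) • ctr η c + t • ctr η d).re / η =
      (1 - t) * (2 * c.1 + c.2 + 1) + t * (2 * d.1 + d.2 + 1) := by
    simp only [ctr, Complex.add_re, Complex.real_smul, Complex.re_ofReal_mul]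
    field_simp
  have e2 : ((1 - t) • ctr η c + t • ctr η d).im / η =
      (1 - t) * (c.2 + 1 / 2) + t * (d.2 + 1 / 2) := by
    simp only [ctr, Complex.add_im, Complex.real_smul, Complex.im_ofReal_mul]
    field_simp
  rw [e1, e2] at he
  obtain ⟨h1, h2, h3, h4⟩ := he
  have hcase : (d.1 = c.1 + 1 ∧ d.2 = c.2) ∨ (d.1 = c.1 ∧ d.2 = c.2 + 1) ∨
      (d.1 = c.1 - 1 ∧ d.2 = c.2 + 1) := by
    unfold Adj at h
    omega
  rw [Prod.ext_iff, Prod.ext_iff]
  rcases hcase with ⟨p, q⟩ | ⟨p, q⟩ | ⟨p, q⟩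
  · have p' : (d.1 : ℝ) = c.1 + 1 := by exact_mod_cast p
    have q' : (d.2 : ℝ) = c.2 := by exact_mod_cast q
    rw [p', q'] at h1 h2
    rw [q'] at h3 h4
    have g1 : e.2 ≤ c.2 := int_le (by linarith)
    have g2 : c.2 ≤ e.2 := int_le (by linarith)
    have g : e.2 = c.2 := le_antisymm g1 g2
    have g' : (e.2 : ℝ) = c.2 := by exact_mod_cast g
    rw [g'] at h1 h2
    have g3 : e.1 ≤ c.1 + 1 := int_le (by push_cast; linarith)
    have g4 : c.1 ≤ e.1 := int_le (by linarith)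
    omega
  · have p' : (d.1 : ℝ) = c.1 := by exact_mod_cast p
    have q' : (d.2 : ℝ) = c.2 + 1 := by exact_mod_cast q
    rw [p', q'] at h1 h2
    rw [q'] at h3 h4
    have g1 : e.2 ≤ c.2 + 1 := int_le (by push_cast; linarith)
    have g2 : c.2 ≤ e.2 := int_le (by linarith)
    have g : e.2 = c.2 ∨ e.2 = c.2 + 1 := by omega
    rcases g with g | g
    · have g' : (e.2 : ℝ) = c.2 := by exact_mod_cast g
      rw [g'] at h1 h2 h4
      have g3 : e.1 ≤ c.1 := int_le (by linarith)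
      have g4 : c.1 ≤ e.1 := int_le (by linarith)
      omega
    · have g' : (e.2 : ℝ) = c.2 + 1 := by exact_mod_cast g
      rw [g'] at h1 h2 h3
      have g3 : e.1 ≤ c.1 := int_le (by linarith)
      have g4 : c.1 ≤ e.1 := int_le (by linarith)
      omega
  · have p' : (d.1 : ℝ) = c.1 - 1 := by exact_mod_cast p
    have q' : (d.2 : ℝ) = c.2 + 1 := by exact_mod_cast q
    rw [p', q'] at h1 h2
    rw [q'] at h3 h4
    have g1 : e.2 ≤ c.2 + 1 := int_le (by push_cast; linarith)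
    have g2 : c.2 ≤ e.2 := int_le (by linarith)
    have g : e.2 = c.2 ∨ e.2 = c.2 + 1 := by omega
    rcases g with g | g
    · have g' : (e.2 : ℝ) = c.2 := by exact_mod_cast g
      rw [g'] at h1 h2 h4
      have g3 : e.1 ≤ c.1 := int_le (by linarith)
      have g4 : c.1 ≤ e.1 := int_le (by linarith)
      omega
    · have g' : (e.2 : ℝ) = c.2 + 1 := by exact_mod_cast g
      rw [g'] at h1 h2 h3
      have g3 : e.1 ≤ c.1 - 1 := int_le (by push_cast; linarith)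
      have g4 : c.1 - 1 ≤ e.1 := int_le (by push_cast; linarith)
      omega

end Pool.Agent.Tame
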