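import Mathlib

/-!
# Limits of homeomorphisms of the plane
-/

set_option autoImplicit false

namespace Pool.Agent.Tame

open Set Topology Filter

theorem geom_le {a : ℕ → ℂ} {e : ℕ → ℝ} (he : ∀ n, e (n + 1) ≤ e n / 2) (he0 : ∀ n, 0 ≤ e n)
    (h : ∀ n, dist (a (n + 1)) (a n) ≤ e n) (n m : ℕ) :
    dist (a (n + m)) (a n) ≤ 2 * e n - 2 * e (n + m) ∨ dist (a (n + m)) (a n) ≤ 2 * e n := by
  right
  induction m with
  | zero => simpa using he0 n
  | succ m ih =>
    have key : ∀ m, dist (a (n + m)) (a n) ≤ 2 * e n - 2 * e (n + m) := by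
      intro m
      induction m with
      | zero => simp
      | succ m ih =>
        have h1 := h (n + m)
        have h2 := he (n + m)
        have h3 := dist_triangle (a (n + (m + 1))) (a (n + m)) (a n)
        have e1 : n + (m + 1) = n + m + 1 := by ring
        rw [e1] at h3 ⊢
        linarith
    have := key (m + 1)
    have := he0 (n + (m + 1))
    linarith

theorem dist_le_two {a : ℕ → ℂ} {e : ℕ → ℝ} (he : ∀ n, e (n + 1) ≤ e n / 2)
    (he0 : ∀ n, 0 ≤ e n) (h : ∀ n, dist (a (n + 1)) (a n) ≤ e n) {n m : ℕ} (hnm : n ≤ m) :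
    dist (a m) (a n) ≤ 2 * e n := by
  obtain ⟨k, rfl⟩ := Nat.exists_eq_add_of_le hnm
  rcases geom_le he he0 h n k with h1 | h1
  · have := he0 (n + k)
    linarith
  · exact h1

theorem tendsto_e {e : ℕ → ℝ} (he : ∀ n, e (n + 1) ≤ e n / 2) (he0 : ∀ n, 0 ≤ e n) :
    Tendsto e atTop (𝓝 0) := by
  have h1 : ∀ n, e n ≤ e 0 * (1 / 2) ^ n := by
    intro n
    induction n with
    | zero => simp
    | succ n ih =>
      have := he n
      rw [pow_succ]
      linarith
  refine squeeze_zero he0 h1 ?_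
  have := (tendsto_pow_atTop_nhds_zero_of_lt_one (r := (1 / 2 : ℝ)) (by norm_num)
    (by norm_num)).const_mul (e 0)
  simpa using this

/-- A sequence of maps with rapidly decreasing steps converges to a continuous map. -/
theorem exists_limit_map {f : ℕ → ℂ → ℂ} (hf : ∀ n, Continuous (f n)) {e : ℕ → ℝ}
    (he : ∀ n, e (n + 1) ≤ e n / 2) (he0 : ∀ n, 0 ≤ e n)
    (h : ∀ n z, dist (f (n + 1) z) (f n z) ≤ e n) :
    ∃ F : ℂ → ℂ, Continuous F ∧ ∀ n z, dist (F z) (f n z) ≤ 2 * e n := by
  have hc : ∀ z, CauchySeq fun n => f n z := by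
    intro z
    rw [Metric.cauchySeq_iff']
    intro ε hε
    have h1 : Tendsto (fun n => 2 * e n) atTop (𝓝 0) := by
      simpa using (tendsto_e he he0).const_mul 2
    obtain ⟨N, hN⟩ := (h1.eventually (gt_mem_nhds hε)).exists
    exact ⟨N, fun n hn => (dist_le_two (a := fun n => f n z) he he0 (fun n => h n z) hn).trans_lt hN⟩
  choose F hF using fun z => cauchySeq_tendsto_of_complete (hc z)
  have hd : ∀ n z, dist (F z) (f n z) ≤ 2 * e n := by
    intro n z
    refine le_of_tendsto ((hF z).dist tendsto_const_nhds) ?_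
    filter_upwards [eventually_ge_atTop n] with m hm
    exact dist_le_two (a := fun n => f n z) he he0 (fun n => h n z) hm
  refine ⟨F, ?_, hd⟩
  have hu : TendstoUniformly f F atTop := by
    rw [Metric.tendstoUniformly_iff]
    intro ε hε
    have h1 : Tendsto (fun n => 2 * e n) atTop (𝓝 0) := by
      simpa using (tendsto_e he he0).const_mul 2
    filter_upwards [h1.eventually (gt_mem_nhds hε)] with n hn z
    exact (hd n z).trans_lt hn
  exact hu.continuous (Frequently.of_forall hf)

/-- A sequence of homeomorphisms with rapidly decreasing steps, also of the inverses, converges to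
a homeomorphism. -/
theorem exists_limit_homeo (f : ℕ → ℂ ≃ₜ ℂ) {e : ℕ → ℝ} (he : ∀ n, e (n + 1) ≤ e n / 2)
    (he0 : ∀ n, 0 ≤ e n) (h : ∀ n z, dist (f (n + 1) z) (f n z) ≤ e n)
    (h' : ∀ n z, dist ((f (n + 1)).symm z) ((f n).symm z) ≤ e n) :
    ∃ F : ℂ ≃ₜ ℂ, ∀ n z, dist (F z) (f n z) ≤ 2 * e n := by
  obtain ⟨F, hF, hFd⟩ := exists_limit_map (fun n => (f n).continuous) he he0 h
  obtain ⟨G, hG, hGd⟩ := exists_limit_map (fun n => (f n).symm.continuous) he he0 h'
  have h2e : Tendsto (fun n => 2 * e n) atTop (𝓝 0) := by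
    simpa using (tendsto_e he he0).const_mul 2
  have key : ∀ (f : ℕ → ℂ → ℂ) (F : ℂ → ℂ), Continuous F → (∀ n z, dist (F z) (f n z) ≤ 2 * e n) →
      ∀ (x : ℕ → ℂ) (x₀ : ℂ), Tendsto x atTop (𝓝 x₀) →
      Tendsto (fun n => f n (x n)) atTop (𝓝 (F x₀)) := by
    intro f F hF hFd x x₀ hx
    have h1 : Tendsto (fun n => F (x n)) atTop (𝓝 (F x₀)) := (hF.tendsto x₀).comp hx
    refine (tendsto_iff_of_dist ?_).1 h1
    exact squeeze_zero (fun _ => dist_nonneg) (fun n => hFd n (x n)) h2e
  have hpt : ∀ (f : ℕ → ℂ → ℂ) (F : ℂ → ℂ), (∀ n z, dist (F z) (f n z) ≤ 2 * e n) → ∀ z,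
      Tendsto (fun n => f n z) atTop (𝓝 (F z)) := by
    intro f F hFd z
    rw [tendsto_iff_dist_tendsto_zero]
    refine squeeze_zero (fun _ => dist_nonneg) (fun n => ?_) h2e
    rw [dist_comm]
    exact hFd n z
  refine ⟨{ toFun := F, invFun := G, left_inv := ?_, right_inv := ?_, continuous_toFun := hF,
            continuous_invFun := hG }, hFd⟩
  · intro z
    have h1 := key (fun n => (f n).symm) G hG hGd (fun n => f n z) (F z)
      (hpt (fun n => f n) F hFd z)
    refine tendsto_nhds_unique h1 ?_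
    simp only [Homeomorph.symm_apply_apply]
    exact tendsto_const_nhds
  · intro z
    have h1 := key (fun n => f n) F hF hFd (fun n => (f n).symm z) (G z)
      (hpt (fun n => (f n).symm) G hGd z)
    refine tendsto_nhds_unique h1 ?_
    simp only [Homeomorph.apply_symm_apply]
    exact tendsto_const_nhds

end Pool.Agent.Tame
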