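import Pool.Agent.Tame.Squeeze

/-!
# From an injective real part to a subset of the real line
-/

set_option autoImplicit false

namespace Pool.Agent.Tame

open Set Topology Filter

/-- The vertical shear along a continuous function. -/
noncomputable def shear (φ : C(ℝ, ℝ)) : ℂ ≃ₜ ℂ where
  toFun z := z - (φ z.re : ℂ) * Complex.I
  invFun z := z + (φ z.re : ℂ) * Complex.I
  left_inv z := by simp
  right_inv z := by simp
  continuous_toFun := by
    have := φ.continuous
    fun_prop
  continuous_invFun := by
    have := φ.continuous
    fun_prop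

@[simp] theorem shear_re (φ : C(ℝ, ℝ)) (z : ℂ) : (shear φ z).re = z.re := by
  simp [shear]

@[simp] theorem shear_im (φ : C(ℝ, ℝ)) (z : ℂ) : (shear φ z).im = z.im - φ z.re := by
  simp [shear]

/-- If the real part is injective on the image of `K` under a homeomorphism, then some
homeomorphism of the plane maps `K` into the real line. -/
theorem exists_line {K : Set ℂ} (hK : IsCompact K) (H : ℂ ≃ₜ ℂ)
    (hH : Set.InjOn (fun z => (H z).re) K) :
    ∃ G : ℂ ≃ₜ ℂ, ∀ z ∈ K, (G z).im = 0 := by
  have : CompactSpace K := isCompact_iff_compactSpace.mp hK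
  have hr : Continuous fun z : K => (H z).re := by
    have := H.continuous
    fun_prop
  have he : IsClosedEmbedding fun z : K => (H z).re :=
    hr.isClosedEmbedding fun x y hxy => Subtype.ext (hH x.2 y.2 hxy)
  have hi : Continuous fun z : K => (H z).im := by
    have := H.continuous
    fun_prop
  obtain ⟨φ, hφ⟩ := ContinuousMap.exists_extension' he (⟨_, hi⟩ : C(K, ℝ))
  refine ⟨H.trans (shear φ), fun z hz => ?_⟩
  have h1 : φ (H z).re = (H z).im := congrFun hφ ⟨z, hz⟩
  show (shear φ (H z)).im = 0
  rw [shear_im, h1, sub_self]

end Pool.Agent.Tame
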