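import Pool.Agent.Tame.Bricks

/-!
# Runs of a cell set
-/

set_option autoImplicit false

namespace Pool.Agent.Tame

open Set Topology

/-- The cells `(k, j)`, `i0 ≤ k ≤ i1`, are a maximal row interval of `F`. -/
structure IsRun (F : Set (ℤ × ℤ)) (j i0 i1 : ℤ) : Prop where
  le : i0 ≤ i1
  mem : ∀ k, i0 ≤ k → k ≤ i1 → (k, j) ∈ F
  left : (i0 - 1, j) ∉ F
  right : (i1 + 1, j) ∉ F

theorem IsRun.unique {F : Set (ℤ × ℤ)} {j i0 i1 k0 k1 x : ℤ} (h : IsRun F j i0 i1)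
    (h' : IsRun F j k0 k1) (h1 : i0 ≤ x) (h2 : x ≤ i1) (h3 : k0 ≤ x) (h4 : x ≤ k1) :
    i0 = k0 ∧ i1 = k1 := by
  constructor
  · by_contra hne
    rcases lt_or_gt_of_ne hne with hlt | hlt
    · exact h'.left (h.mem (k0 - 1) (by omega) (by omega))
    · exact h.left (h'.mem (i0 - 1) (by omega) (by omega))
  · by_contra hne
    rcases lt_or_gt_of_ne hne with hlt | hlt
    · exact h.right (h'.mem (i1 + 1) (by omega) (by omega))
    · exact h'.right (h.mem (k1 + 1) (by omega) (by omega))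

theorem exists_hi {F : Set (ℤ × ℤ)} (hF : F.Finite) {i j : ℤ} (hc : (i, j) ∈ F) :
    ∃ i1, i ≤ i1 ∧ (∀ k, i ≤ k → k ≤ i1 → (k, j) ∈ F) ∧ (i1 + 1, j) ∉ F := by
  classical
  have hex : ∃ n : ℕ, (i + n + 1, j) ∉ F := by
    by_contra hcon
    push Not at hcon
    refine (hF.subset (s := F) (t := Set.range fun n : ℕ => (i + n + 1, j)) ?_).not_infinite
      (Set.infinite_range_of_injective ?_)
    · rintro _ ⟨n, rfl⟩
      exact hcon n
    · intro m n hmn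
      simpa using hmn
  have hspec := Nat.find_spec hex
  have hmin := fun m hm => Nat.find_min hex (m := m) hm
  refine ⟨i + Nat.find hex, by omega, fun k hk1 hk2 => ?_, hspec⟩
  rcases eq_or_lt_of_le hk1 with h | h
  · rw [← h]
    exact hc
  · obtain ⟨n, hn⟩ := Int.eq_ofNat_of_zero_le (show 0 ≤ k - i - 1 by omega)
    have := hmin n (by omega)
    rw [not_not] at this
    have e : k = i + n + 1 := by omega
    rw [e]
    exact this

theorem exists_lo {F : Set (ℤ × ℤ)} (hF : F.Finite) {i j : ℤ} (hc : (i, j) ∈ F) :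
    ∃ i0, i0 ≤ i ∧ (∀ k, i0 ≤ k → k ≤ i → (k, j) ∈ F) ∧ (i0 - 1, j) ∉ F := by
  have hinj : Function.Injective (fun c : ℤ × ℤ => (-c.1, c.2)) := by
    rintro ⟨a, b⟩ ⟨c, d⟩ h
    simpa using h
  have h1 : ((fun c : ℤ × ℤ => (-c.1, c.2)) ⁻¹' F).Finite := hF.preimage hinj.injOn
  obtain ⟨i1, h2, h3, h4⟩ := exists_hi h1 (i := -i) (j := j) (by simpa using hc)
  refine ⟨-i1, by omega, fun k hk1 hk2 => ?_, ?_⟩
  · have := h3 (-k) (by omega) (by omega)
    simpa using this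
  · intro h
    refine h4 ?_
    have e : -(i1 + 1) = -i1 - 1 := by ring
    simp only [mem_preimage]
    rw [e]
    exact h

theorem exists_run {F : Set (ℤ × ℤ)} (hF : F.Finite) {c : ℤ × ℤ} (hc : c ∈ F) :
    ∃ i0 i1, IsRun F c.2 i0 i1 ∧ i0 ≤ c.1 ∧ c.1 ≤ i1 := by
  obtain ⟨i1, h1, h2, h3⟩ := exists_hi hF (i := c.1) (j := c.2) hc
  obtain ⟨i0, h4, h5, h6⟩ := exists_lo hF (i := c.1) (j := c.2) hc
  refine ⟨i0, i1, ⟨by omega, fun k hk1 hk2 => ?_, h6, h3⟩, h4, h1⟩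
  rcases le_total k c.1 with h | h
  · exact h5 k hk1 h
  · exact h2 k h hk2

/-- The cells of a run. -/
def Cs (j i0 i1 : ℤ) : Set (ℤ × ℤ) := {c | c.2 = j ∧ i0 ≤ c.1 ∧ c.1 ≤ i1}

/-- Horizontal chains. -/
theorem row_chain {F : Set (ℤ × ℤ)} {j i0 i1 : ℤ} (h : Cs j i0 i1 ⊆ F) {c d : ℤ × ℤ}
    (hc : c ∈ Cs j i0 i1) (hd : d ∈ Cs j i0 i1) : Relation.ReflTransGen (In F) c d := by
  have key : ∀ n : ℕ, (i0 + n, j) ∈ Cs j i0 i1 →
      Relation.ReflTransGen (In F) (i0, j) (i0 + n, j) := by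
    intro n
    induction n with
    | zero =>
      intro _
      simp only [Nat.cast_zero, add_zero]
      exact .refl
    | succ n ih =>
      intro hn
      have h1 : i0 + ((n + 1 : ℕ) : ℤ) ≤ i1 := hn.2.2
      have h2 : (i0 + (n : ℤ), j) ∈ Cs j i0 i1 := by
        refine ⟨rfl, ?_, ?_⟩
        · show i0 ≤ i0 + (n : ℤ)
          omega
        · show i0 + (n : ℤ) ≤ i1
          push_cast at h1
          omega
      refine (ih h2).tail ⟨?_, h hn⟩
      left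
      refine ⟨?_, rfl⟩
      show i0 + ((n + 1 : ℕ) : ℤ) = i0 + n + 1
      push_cast
      ring
  have key' : ∀ c ∈ Cs j i0 i1, Relation.ReflTransGen (In F) (i0, j) c := by
    rintro ⟨i, j'⟩ ⟨h1, h2, h3⟩
    simp only at h1 h2 h3
    subst h1
    obtain ⟨n, hn⟩ := Int.eq_ofNat_of_zero_le (show 0 ≤ i - i0 by omega)
    have e : i = i0 + n := by omega
    rw [e]
    exact key n (e ▸ ⟨rfl, h2, h3⟩)
  have h0 : ((i0, j) : ℤ × ℤ) ∈ Cs j i0 i1 := ⟨rfl, le_refl _, hc.2.1.trans hc.2.2⟩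
  exact (chain_symm (h h0) (key' c hc)).trans (key' d hd)

/-- Adjacent cells in one row lie in one run. -/
theorem IsRun.adj_row {F : Set (ℤ × ℤ)} {j i0 i1 : ℤ} (h : IsRun F j i0 i1) {c d : ℤ × ℤ}
    (hc : c ∈ Cs j i0 i1) (hcd : Adj c d) (hd : d ∈ F) (hrow : d.2 = c.2) : d ∈ Cs j i0 i1 := by
  obtain ⟨h1, h2, h3⟩ := hc
  have h4 : d.2 = j := hrow.trans h1
  have h5 : d ≠ (i0 - 1, j) := fun e => h.left (e ▸ hd)
  have h6 : d ≠ (i1 + 1, j) := fun e => h.right (e ▸ hd)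
  have h7 : d.1 ≠ i0 - 1 := fun e => h5 (Prod.ext e h4)
  have h8 : d.1 ≠ i1 + 1 := fun e => h6 (Prod.ext e h4)
  refine ⟨h4, ?_, ?_⟩ <;>
  · unfold Adj at hcd
    omega

/-- Chains with both ends in the set. -/
theorem chain_both {F : Set (ℤ × ℤ)} {c d : ℤ × ℤ} (hc : c ∈ F)
    (h : Relation.ReflTransGen (In F) c d) :
    Relation.ReflTransGen (fun a b => Adj a b ∧ a ∈ F ∧ b ∈ F) c d := by
  induction h with
  | refl => exact .refl
  | @tail b d hb hbd ih => exact ih.tail ⟨hbd.1, chain_mem hc hb, hbd.2⟩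

/-- The type of the runs of `F`. -/
def RT (F : Set (ℤ × ℤ)) : Type := {t : ℤ × ℤ × ℤ // IsRun F t.1 t.2.1 t.2.2}

/-- The cells of a run. -/
def RT.cells {F : Set (ℤ × ℤ)} (t : RT F) : Set (ℤ × ℤ) := Cs t.1.1 t.1.2.1 t.1.2.2

theorem RT.subset {F : Set (ℤ × ℤ)} (t : RT F) : t.cells ⊆ F := by
  rintro ⟨i, j⟩ ⟨h1, h2, h3⟩
  simp only at h1 h2 h3
  subst h1
  exact t.2.mem i h2 h3

theorem RT.eq_of_mem {F : Set (ℤ × ℤ)} {s t : RT F} {c : ℤ × ℤ} (hs : c ∈ s.cells)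
    (ht : c ∈ t.cells) : s = t := by
  obtain ⟨⟨j, i0, i1⟩, hs'⟩ := s
  obtain ⟨⟨j', k0, k1⟩, ht'⟩ := t
  obtain ⟨h1, h2, h3⟩ := hs
  obtain ⟨h4, h5, h6⟩ := ht
  simp only at h1 h2 h3 h4 h5 h6 hs' ht'
  obtain rfl : j = j' := h1.symm.trans h4
  obtain ⟨rfl, rfl⟩ := hs'.unique ht' h2 h3 h5 h6
  rfl

theorem RT.first_mem {F : Set (ℤ × ℤ)} (t : RT F) : (t.1.2.1, t.1.1) ∈ t.cells :=
  ⟨rfl, le_refl _, t.2.le⟩

theorem exists_RT {F : Set (ℤ × ℤ)} (hF : F.Finite) {c : ℤ × ℤ} (hc : c ∈ F) :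
    ∃ t : RT F, c ∈ t.cells := by
  obtain ⟨i0, i1, h, h1, h2⟩ := exists_run hF hc
  exact ⟨⟨(c.2, i0, i1), h⟩, rfl, h1, h2⟩

theorem finite_RT {F : Set (ℤ × ℤ)} (hF : F.Finite) : Finite (RT F) := by
  have := hF.to_subtype
  refine Finite.of_injective (fun t : RT F => (⟨_, t.subset t.first_mem⟩ : F)) fun s t h => ?_
  have h1 : ((s.1.2.1, s.1.1) : ℤ × ℤ) = (t.1.2.1, t.1.1) := congrArg Subtype.val h
  exact RT.eq_of_mem s.first_mem (h1 ▸ t.first_mem)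

/-- The graph of the runs. -/
def runGraph (F : Set (ℤ × ℤ)) : SimpleGraph (RT F) where
  Adj s t := s ≠ t ∧ ∃ c ∈ s.cells, ∃ d ∈ t.cells, Adj c d
  symm := ⟨fun _ _ h => ⟨h.1.symm, by
    obtain ⟨c, hc, d, hd, hcd⟩ := h.2
    exact ⟨d, hd, c, hc, hcd.symm⟩⟩⟩
  loopless := ⟨fun _ h => h.1 rfl⟩

theorem reachable_run {F : Set (ℤ × ℤ)} (hF : F.Finite) {c d : ℤ × ℤ} (hc : c ∈ F)
    (h : Relation.ReflTransGen (In F) c d) {s : RT F} (hs : c ∈ s.cells) :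
    ∀ t : RT F, d ∈ t.cells → (runGraph F).Reachable s t := by
  induction h with
  | refl =>
    intro t ht
    rw [RT.eq_of_mem hs ht]
  | @tail b d hb hbd ih =>
    intro t ht
    obtain ⟨u, hu⟩ := exists_RT hF (chain_mem hc hb)
    have h1 := ih u hu
    by_cases hut : u = t
    · exact hut ▸ h1
    · exact h1.trans (SimpleGraph.Adj.reachable ⟨hut, b, hu, d, ht, hbd.1⟩)

/-- Steps of `F` which do not go directly from `s` to `t` or back. -/
def Good (F : Set (ℤ × ℤ)) (S T : Set (ℤ × ℤ)) (a b : ℤ × ℤ) : Prop :=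
  (Adj a b ∧ a ∈ F ∧ b ∈ F) ∧ ¬ (a ∈ S ∧ b ∈ T) ∧ ¬ (a ∈ T ∧ b ∈ S)

theorem exists_leaf {F : Set (ℤ × ℤ)} (hF : PF F)
    (hnc : ∀ s t : RT F, s ≠ t → ∀ c ∈ s.cells, ∀ d ∈ t.cells, Adj c d →
      ¬ Relation.ReflTransGen (Good F s.cells t.cells) c d) :
    (∃ j i0 i1, i0 ≤ i1 ∧ F = Cs j i0 i1) ∨ ∃ v s : RT F, (runGraph F).Adj v s ∧
      (∀ t, (runGraph F).Adj v t → t = s) ∧ PF (F \ v.cells) := by
  classical
  have hfin := finite_RT hF.fin
  obtain ⟨c0, hc0⟩ := hF.ne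
  obtain ⟨t0, ht0⟩ := exists_RT hF.fin hc0
  have hne : Nonempty (RT F) := ⟨t0⟩
  have hpre : (runGraph F).Preconnected := by
    intro s t
    exact reachable_run hF.fin (s.subset s.first_mem)
      (hF.conn _ (s.subset s.first_mem) _ (t.subset t.first_mem)) s.first_mem t t.first_mem
  have hconn : (runGraph F).Connected := ⟨hpre⟩
  by_cases htriv : ∀ t : RT F, t = t0
  · left
    refine ⟨t0.1.1, t0.1.2.1, t0.1.2.2, t0.2.le, ?_⟩
    apply Subset.antisymm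
    · intro c hc
      obtain ⟨t, ht⟩ := exists_RT hF.fin hc
      exact htriv t ▸ ht
    · exact t0.subset
  right
  push Not at htriv
  obtain ⟨t1, ht1⟩ := htriv
  obtain ⟨v, hv⟩ := hconn.exists_preconnected_induce_compl_singleton_of_finite
  -- chains outside `v`
  have hout : ∀ s t : RT F, s ≠ v → t ≠ v → ∀ c ∈ s.cells, ∀ d ∈ t.cells,
      Relation.ReflTransGen (In (F \ v.cells)) c d := by
    have hrow : ∀ s : RT F, s ≠ v → s.cells ⊆ F \ v.cells := fun s hs c hc =>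
      ⟨s.subset hc, fun hcv => hs (RT.eq_of_mem hc hcv)⟩
    intro s t hs ht
    have hr := hv ⟨s, hs⟩ ⟨t, ht⟩
    rw [SimpleGraph.reachable_iff_reflTransGen] at hr
    have key : ∀ x y : ({v}ᶜ : Set (RT F)), Relation.ReflTransGen
        (SimpleGraph.induce {v}ᶜ (runGraph F)).Adj x y → ∀ c ∈ x.1.cells, ∀ d ∈ y.1.cells,
        Relation.ReflTransGen (In (F \ v.cells)) c d := by
      intro x y hxy
      induction hxy with
      | refl =>
        intro c hc d hd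
        exact row_chain (hrow x.1 x.2) hc hd
      | @tail y z hy hyz ih =>
        intro c hc d hd
        obtain ⟨-, a, ha, b, hb, hab⟩ := hyz
        exact ((ih c hc a ha).tail ⟨hab, hrow z.1 z.2 hb⟩).trans
          (row_chain (hrow z.1 z.2) hb hd)
    exact key _ _ hr
  -- a neighbour of `v`
  have hnb : ∃ s, (runGraph F).Adj v s := by
    have : ∃ u, u ≠ v := by
      by_cases h : t0 = v
      · exact ⟨t1, fun h' => ht1 (h'.trans h.symm)⟩
      · exact ⟨t0, h⟩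
    obtain ⟨u, hu⟩ := this
    obtain ⟨w⟩ := hpre v u
    cases w with
    | nil => exact absurd rfl hu
    | cons h _ => exact ⟨_, h⟩
  obtain ⟨s, hvs⟩ := hnb
  refine ⟨v, s, hvs, ?_, ?_⟩
  · intro t hvt
    by_contra hts
    obtain ⟨hne1, c, hc, d, hd, hcd⟩ := hvs
    obtain ⟨hne2, c1, hc1, e1, he1, hce⟩ := hvt
    refine hnc v s hne1 c hc d hd hcd ?_
    have A : Relation.ReflTransGen (Good F v.cells s.cells) c c1 := by
      refine Relation.ReflTransGen.mono ?_ _ _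
        (chain_both hc (row_chain (F := v.cells) (Subset.refl _) hc hc1))
      rintro a b ⟨h1, h2, h3⟩
      exact ⟨⟨h1, v.subset h2, v.subset h3⟩, fun h => hne1 (RT.eq_of_mem h3 h.2),
        fun h => hne1 (RT.eq_of_mem h2 h.1)⟩
    have B : Relation.ReflTransGen (Good F v.cells s.cells) e1 d := by
      have h0 : e1 ∈ F \ v.cells := ⟨t.subset he1, fun h => hne2 (RT.eq_of_mem h he1)⟩
      refine Relation.ReflTransGen.mono ?_ _ _
        (chain_both h0 (hout t s hne2.symm hne1.symm e1 he1 d hd))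
      rintro a b ⟨h1, h2, h3⟩
      exact ⟨⟨h1, h2.1, h3.1⟩, fun h => h2.2 h.1, fun h => h3.2 h.2⟩
    refine (A.tail ⟨⟨hce, v.subset hc1, t.subset he1⟩, fun h => hts (RT.eq_of_mem he1 h.2),
      fun h => hne1 (RT.eq_of_mem hc1 h.1)⟩).trans B
  · refine ⟨hF.fin.subset sdiff_subset, ⟨_, s.subset s.first_mem, fun h =>
      hvs.1 (RT.eq_of_mem h s.first_mem)⟩, ?_, ?_⟩
    · intro c hc d hd
      obtain ⟨t, ht⟩ := exists_RT hF.fin hc.1
      obtain ⟨u, hu⟩ := exists_RT hF.fin hd.1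
      exact hout t u (fun h => hc.2 (h ▸ ht)) (fun h => hd.2 (h ▸ hu)) c ht d hu
    · have hsub : Fᶜ ⊆ (F \ v.cells)ᶜ := fun c hc h => hc h.1
      have hr : ((v.1.2.1 - 1, v.1.1) : ℤ × ℤ) ∈ Fᶜ := v.2.left
      refine conn_of_root (hsub hr) fun c hc => ?_
      by_cases hcF : c ∈ F
      · have hcv : c ∈ v.cells := by
          by_contra h
          exact hc ⟨hcF, h⟩
        have hv' : v.cells ⊆ (F \ v.cells)ᶜ := fun d hd h => h.2 hd
        refine Relation.ReflTransGen.head (b := (v.1.2.1, v.1.1)) ⟨?_, hv' v.first_mem⟩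
          (row_chain hv' v.first_mem hcv)
        left
        refine ⟨?_, rfl⟩
        show v.1.2.1 = v.1.2.1 - 1 + 1
        ring
      · exact Relation.ReflTransGen.mono (fun a b h => In.mono hsub h) _ _ (hF.co _ hr c hcF)

end Pool.Agent.Tame
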