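import Pool.Agent.Tame.Limit

/-!
# From small squeezable covers to a homeomorphism onto a subset of a line
-/

set_option autoImplicit false

namespace Pool.Agent.Tame

open Set Topology Filter

/-- The part of `K` in `V` can be moved into every small open set (in some open part `R` of
`V`) by a homeomorphism supported in `V`. -/
def Squeezable (K V : Set ℂ) : Prop :=
  ∃ R : Set ℂ, IsOpen R ∧ R.Nonempty ∧ R ⊆ V ∧ ∀ U ⊆ R, IsOpen U →
    U.Nonempty → ∃ h : ℂ ≃ₜ ℂ, (∀ z ∉ V, h z = z) ∧ h '' (K ∩ V) ⊆ U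

/-- `K` has covers by finitely many disjoint small squeezable open sets. -/
def Coverable (K : Set ℂ) : Prop :=
  ∀ ε : ℝ, 0 < ε → ∃ (n : ℕ) (V : Fin n → Set ℂ), (∀ i, IsOpen (V i)) ∧
    (∀ i, Squeezable K (V i)) ∧ Pairwise (fun i j => Disjoint (V i) (V j)) ∧
    (∀ i, ∀ x ∈ V i, ∀ y ∈ V i, dist x y ≤ ε) ∧ K ⊆ ⋃ i, V i

/-- A homeomorphism supported in `V` maps `V` onto itself. -/
theorem maps_supp {h : ℂ ≃ₜ ℂ} {V : Set ℂ} (hs : ∀ z ∉ V, h z = z) {z : ℂ} (hz : z ∈ V) :
    h z ∈ V := by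
  by_contra hn
  have h1 := hs _ hn
  have h2 := h.injective h1
  exact hn (h2.symm ▸ hz)

theorem symm_supp {h : ℂ ≃ₜ ℂ} {V : Set ℂ} (hs : ∀ z ∉ V, h z = z) : ∀ z ∉ V, h.symm z = z := by
  intro z hz
  rw [Homeomorph.symm_apply_eq, hs z hz]

/-- Homeomorphisms with disjoint supports are glued. -/
theorem exists_glue (n : ℕ) (V : Fin n → Set ℂ) (hV : Pairwise fun i j => Disjoint (V i) (V j))
    (h : Fin n → ℂ ≃ₜ ℂ) (hs : ∀ i, ∀ z ∉ V i, h i z = z) :
    ∃ g : ℂ ≃ₜ ℂ, (∀ i, ∀ z ∈ V i, g z = h i z) ∧ ∀ z, (∀ i, z ∉ V i) → g z = z := by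
  induction n with
  | zero => exact ⟨Homeomorph.refl ℂ, fun i => i.elim0, fun z _ => rfl⟩
  | succ n ih =>
    obtain ⟨g, hg1, hg2⟩ := ih (fun i => V i.castSucc)
      (fun i j hij => hV (fun e => hij (Fin.castSucc_injective n e)))
      (fun i => h i.castSucc) (fun i => hs i.castSucc)
    refine ⟨g.trans (h (Fin.last n)), ?_, ?_⟩
    · intro i z hz
      refine Fin.lastCases ?_ (fun i => ?_) i (motive := fun i => z ∈ V i →
        (g.trans (h (Fin.last n))) z = h i z) hz
      · intro hz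
        show h (Fin.last n) (g z) = _
        rw [hg2 z]
        intro i hi
        exact (hV (Fin.castSucc_lt_last i).ne).le_bot ⟨hi, hz⟩
      · intro hz
        show h (Fin.last n) (g z) = _
        rw [hg1 i z hz]
        refine hs _ _ fun hl => ?_
        exact (hV (Fin.castSucc_lt_last i).ne).le_bot
          ⟨maps_supp (hs i.castSucc) hz, hl⟩
    · intro z hz
      show h (Fin.last n) (g z) = z
      rw [hg2 z fun i => hz i.castSucc]
      exact hs _ _ (hz _)

/-- Distinct representatives of infinite sets. -/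
theorem exists_distinct (n : ℕ) (S : Fin n → Set ℝ) (hS : ∀ i, (S i).Infinite) :
    ∃ x : Fin n → ℝ, (∀ i, x i ∈ S i) ∧ Function.Injective x := by
  induction n with
  | zero => exact ⟨fun i => i.elim0, fun i => i.elim0, fun i => i.elim0⟩
  | succ n ih =>
    obtain ⟨x, hx, hinj⟩ := ih (fun i => S i.castSucc) (fun i => hS _)
    obtain ⟨y, hy, hy'⟩ := (hS (Fin.last n)).exists_notMem_finset (Finset.univ.image x)
    refine ⟨Fin.snoc x y, ?_, ?_⟩
    · intro i
      refine Fin.lastCases ?_ (fun i => ?_) i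
      · simpa using hy
      · simpa using hx i
    · rw [Fin.snoc_injective_iff]
      exact ⟨hinj, fun ⟨i, hi⟩ => hy' (by
        rw [Finset.mem_image]
        exact ⟨i, Finset.mem_univ _, hi⟩)⟩

theorem exists_pos_le {ι : Type} [Finite ι] (r : ι → ℝ) (hr : ∀ i, 0 < r i) :
    ∃ s, 0 < s ∧ ∀ i, s ≤ r i := by
  cases isEmpty_or_nonempty ι
  · exact ⟨1, one_pos, fun i => isEmptyElim i⟩
  · obtain ⟨i, hi⟩ := Finite.exists_min r
    exact ⟨r i, hr i, hi⟩

/-- One step. -/
theorem step {K : Set ℂ} (hK : IsCompact K) (H : ℂ ≃ₜ ℂ) (hcov : Coverable (H '' K)) {ε : ℝ}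
    (hε : 0 < ε) :
    ∃ g : ℂ ≃ₜ ℂ, (∀ z, dist (g z) z ≤ ε) ∧ (∀ z, dist (H.symm (g.symm z)) (H.symm z) ≤ ε) ∧
      ∃ δ : ℝ, 0 < δ ∧ ∀ x ∈ K, ∀ y ∈ K, ε ≤ dist x y → δ ≤ |(g (H x)).re - (g (H y)).re| := by
  classical
  have hK' : IsCompact (H '' K) := hK.image H.continuous
  obtain ⟨R, hR⟩ := hK'.isBounded.subset_closedBall 0
  set B : Set ℂ := Metric.closedBall 0 (R + 1) with hB
  have huc : UniformContinuousOn H.symm B :=
    (isCompact_closedBall 0 (R + 1)).uniformContinuousOn_of_continuous H.symm.continuous.continuousOn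
  obtain ⟨η, hη, hη'⟩ := Metric.uniformContinuousOn_iff.1 huc ε hε
  set ε' : ℝ := min (min ε (η / 2)) 1 with hε'
  have hε'0 : 0 < ε' := by positivity
  obtain ⟨n, V, hVo, hVs, hVd, hVε, hVK⟩ := hcov ε' hε'0
  -- pieces which meet `K`
  have hVB : ∀ i, (V i ∩ H '' K).Nonempty → V i ⊆ B := by
    rintro i ⟨w, hw, hwK⟩ z hz
    have h1 := hVε i z hz w hw
    have h2 := hR hwK
    rw [mem_closedBall_zero_iff] at h2
    rw [hB, mem_closedBall_zero_iff]
    have h3 : dist z w = ‖z - w‖ := dist_eq_norm _ _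
    have h4 : ‖z‖ ≤ ‖z - w‖ + ‖w‖ := by
      have := norm_add_le (z - w) w
      simpa using this
    have h5 : ε' ≤ 1 := min_le_right _ _
    linarith
  have hVη : ∀ i, (V i ∩ H '' K).Nonempty → ∀ x ∈ V i, ∀ y ∈ V i,
      dist (H.symm x) (H.symm y) < ε := by
    intro i hi x hx y hy
    refine hη' x (hVB i hi hx) y (hVB i hi hy) ?_
    have h1 := hVε i x hx y hy
    have h2 : ε' ≤ η / 2 := (min_le_left _ _).trans (min_le_right _ _)
    linarith
  choose Ri hRo hRn hRV hsq using hVs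
  -- targets
  have hinf : ∀ i, (Complex.re '' Ri i).Infinite := by
    intro i
    have h1 : IsOpen (Complex.re '' Ri i) := Complex.isOpenMap_re _ (hRo i)
    obtain ⟨x, hx⟩ := (hRn i).image Complex.re
    obtain ⟨r, hr, hr'⟩ := Metric.isOpen_iff.1 h1 x hx
    refine Set.Infinite.mono hr' ?_
    rw [Real.ball_eq_Ioo]
    exact Ioo_infinite (by linarith)
  obtain ⟨x, hx, hxinj⟩ := exists_distinct n _ hinf
  choose p hp hpx using hx
  obtain ⟨r, hr, hrR, hrx⟩ : ∃ r : ℝ, 0 < r ∧ (∀ i, Metric.ball (p i) r ⊆ Ri i) ∧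
      ∀ i j, i ≠ j → 4 * r ≤ |x i - x j| := by
    have h1 : ∀ i, ∃ r : ℝ, 0 < r ∧ Metric.ball (p i) r ⊆ Ri i := fun i => by
      obtain ⟨r, hr, hr'⟩ := Metric.isOpen_iff.1 (hRo i) (p i) (hp i)
      exact ⟨r, hr, hr'⟩
    choose r1 hr1 hr1' using h1
    have h2 : ∀ ij : Fin n × Fin n, ∃ r : ℝ, 0 < r ∧ (ij.1 ≠ ij.2 → 4 * r ≤ |x ij.1 - x ij.2|) := by
      rintro ⟨i, j⟩
      by_cases hij : i = j
      · exact ⟨1, one_pos, fun h => absurd hij h⟩
      · have h3 : 0 < |x i - x j| := abs_pos.2 (sub_ne_zero.2 fun h => hij (hxinj h))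
        exact ⟨|x i - x j| / 4, by positivity, fun _ => by simp only; linarith⟩
    choose r2 hr2 hr2' using h2
    obtain ⟨s1, hs1, hs1'⟩ := exists_pos_le r1 hr1
    obtain ⟨s2, hs2, hs2'⟩ := exists_pos_le r2 hr2
    refine ⟨min s1 s2, lt_min hs1 hs2, fun i => ?_, fun i j hij => ?_⟩
    · exact (Metric.ball_subset_ball ((min_le_left _ _).trans (hs1' i))).trans (hr1' i)
    · have h3 := hr2' (i, j) hij
      have h4 := hs2' (i, j)
      have h5 : min s1 s2 ≤ s2 := min_le_right _ _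
      simp only at h3
      linarith
  -- the squeezing homeomorphisms
  have hh : ∀ i, ∃ h : ℂ ≃ₜ ℂ, (∀ z ∉ V i, h z = z) ∧
      (¬ (V i ∩ H '' K).Nonempty → h = Homeomorph.refl ℂ) ∧
      h '' (H '' K ∩ V i) ⊆ Metric.ball (p i) r := by
    intro i
    by_cases hi : (V i ∩ H '' K).Nonempty
    · obtain ⟨h, h1, h2⟩ := hsq i (Metric.ball (p i) r) (hrR i)
        Metric.isOpen_ball ⟨p i, Metric.mem_ball_self hr⟩
      exact ⟨h, h1, fun hn => absurd hi hn, h2⟩
    · refine ⟨Homeomorph.refl ℂ, fun z _ => rfl, fun _ => rfl, ?_⟩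
      rintro _ ⟨z, ⟨hz1, hz2⟩, rfl⟩
      exact absurd ⟨z, hz2, hz1⟩ hi
  choose h hs hrefl hsqz using hh
  obtain ⟨g, hg1, hg2⟩ := exists_glue n V hVd h hs
  have hgV : ∀ i, ∀ z ∈ V i, g z ∈ V i := fun i z hz => by
    rw [hg1 i z hz]
    exact maps_supp (hs i) hz
  have hgs : ∀ i, ∀ z ∈ V i, g.symm z ∈ V i := by
    intro i z hz
    have h1 : (h i).symm z ∈ V i := maps_supp (symm_supp (hs i)) hz
    have h2 : g ((h i).symm z) = z := by rw [hg1 i _ h1, Homeomorph.apply_symm_apply]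
    rw [← h2, Homeomorph.symm_apply_apply]
    exact h1
  refine ⟨g, fun z => ?_, fun z => ?_, 2 * r, by positivity, ?_⟩
  · by_cases hz : ∃ i, z ∈ V i
    · obtain ⟨i, hi⟩ := hz
      exact (hVε i _ (hgV i z hi) _ hi).trans ((min_le_left _ _).trans (min_le_left _ _))
    · push Not at hz
      rw [hg2 z hz, dist_self]
      exact hε.le
  · by_cases hz : ∃ i, z ∈ V i
    · obtain ⟨i, hi⟩ := hz
      by_cases hK : (V i ∩ H '' K).Nonempty
      · exact (hVη i hK _ (hgs i z hi) _ hi).le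
      · have h1 : g.symm z = z := by
          rw [Homeomorph.symm_apply_eq, hg1 i z hi, hrefl i hK]
          rfl
        rw [h1, dist_self]
        exact hε.le
    · push Not at hz
      have h1 : g.symm z = z := by rw [Homeomorph.symm_apply_eq, hg2 z hz]
      rw [h1, dist_self]
      exact hε.le
  · intro a ha b hb hab
    have haK : H a ∈ H '' K := mem_image_of_mem _ ha
    have hbK : H b ∈ H '' K := mem_image_of_mem _ hb
    obtain ⟨i, hi⟩ := mem_iUnion.1 (hVK haK)
    obtain ⟨j, hj⟩ := mem_iUnion.1 (hVK hbK)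
    have hij : i ≠ j := by
      rintro rfl
      have := hVη i ⟨H a, hi, haK⟩ _ hi _ hj
      rw [Homeomorph.symm_apply_apply, Homeomorph.symm_apply_apply] at this
      linarith
    have h1 : g (H a) ∈ Metric.ball (p i) r := by
      rw [hg1 i _ hi]
      exact hsqz i ⟨H a, ⟨haK, hi⟩, rfl⟩
    have h2 : g (H b) ∈ Metric.ball (p j) r := by
      rw [hg1 j _ hj]
      exact hsqz j ⟨H b, ⟨hbK, hj⟩, rfl⟩
    have h3 : |(g (H a)).re - x i| < r := by
      have h4 : ‖g (H a) - p i‖ < r := by rw [← dist_eq_norm]; exact h1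
      have h5 := Complex.abs_re_le_norm (g (H a) - p i)
      rw [Complex.sub_re, hpx i] at h5
      linarith
    have h4 : |(g (H b)).re - x j| < r := by
      have h4 : ‖g (H b) - p j‖ < r := by rw [← dist_eq_norm]; exact h2
      have h5 := Complex.abs_re_le_norm (g (H b) - p j)
      rw [Complex.sub_re, hpx j] at h5
      linarith
    have h5 := hrx i j hij
    have h6 : |x i - x j| ≤ |(g (H a)).re - (g (H b)).re| + |(g (H a)).re - x i| +
        |(g (H b)).re - x j| := by
      have e : x i - x j = ((g (H a)).re - (g (H b)).re) + (-((g (H a)).re - x i)) +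
          ((g (H b)).re - x j) := by ring
      calc |x i - x j| = |((g (H a)).re - (g (H b)).re) + (-((g (H a)).re - x i)) +
          ((g (H b)).re - x j)| := by rw [← e]
        _ ≤ |((g (H a)).re - (g (H b)).re) + (-((g (H a)).re - x i))| +
          |(g (H b)).re - x j| := abs_add_le _ _
        _ ≤ _ := by
          have := abs_add_le ((g (H a)).re - (g (H b)).re) (-((g (H a)).re - x i))
          rw [abs_neg] at this
          linarith
    linarith

/-- The state of the recursion. -/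
structure St where
  /-- the homeomorphism -/
  H : ℂ ≃ₜ ℂ
  /-- the allowed perturbation -/
  e : ℝ
  he : 0 < e

/-- A homeomorphism of the plane after which the real part is injective on `K`. -/
theorem exists_re_injOn {K : Set ℂ} (hK : IsCompact K) (hcov : ∀ H : ℂ ≃ₜ ℂ, Coverable (H '' K)) :
    ∃ H : ℂ ≃ₜ ℂ, InjOn (fun z => (H z).re) K := by
  choose g hg1 hg2 δ hδ hg3 using fun s : St => step hK s.H (hcov s.H) s.he
  let next : St → St := fun s =>
    { H := s.H.trans (g s), e := min (s.e / 2) (δ s / 8), he := by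
        have := s.he
        have := hδ s
        positivity }
  let s : ℕ → St := fun n => Nat.rec ⟨Homeomorph.refl ℂ, 1, one_pos⟩ (fun _ => next) n
  have hs : ∀ n, s (n + 1) = next (s n) := fun n => rfl
  have he : ∀ n, (s (n + 1)).e ≤ (s n).e / 2 := fun n => min_le_left _ _
  have heδ : ∀ n, (s (n + 1)).e ≤ δ (s n) / 8 := fun n => min_le_right _ _
  obtain ⟨F, hF⟩ := exists_limit_homeo (fun n => (s n).H) he (fun n => (s n).he.le)
    (fun n z => hg1 (s n) ((s n).H z)) (fun n z => hg2 (s n) z)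
  refine ⟨F, fun x hx y hy hxy => ?_⟩
  by_contra hne
  have hd : 0 < dist x y := dist_pos.2 hne
  obtain ⟨n, hn⟩ := ((tendsto_e he (fun n => (s n).he.le)).eventually (gt_mem_nhds hd)).exists
  have h1 := hg3 (s n) x hx y hy hn.le
  have h2 := hF (n + 1) x
  have h3 := hF (n + 1) y
  have e1 : (s (n + 1)).H x = g (s n) ((s n).H x) := rfl
  have e2 : (s (n + 1)).H y = g (s n) ((s n).H y) := rfl
  have h4 : |(F x).re - ((s (n + 1)).H x).re| ≤ 2 * (s (n + 1)).e := by
    have := Complex.abs_re_le_norm (F x - (s (n + 1)).H x)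
    rw [Complex.sub_re, ← dist_eq_norm] at this
    exact this.trans h2
  have h5 : |(F y).re - ((s (n + 1)).H y).re| ≤ 2 * (s (n + 1)).e := by
    have := Complex.abs_re_le_norm (F y - (s (n + 1)).H y)
    rw [Complex.sub_re, ← dist_eq_norm] at this
    exact this.trans h3
  have h6 := heδ n
  have h7 := hδ (s n)
  simp only at hxy
  rw [← e1, ← e2] at h1
  rw [abs_le] at h4 h5
  have h8 : |((s (n + 1)).H x).re - ((s (n + 1)).H y).re| ≤ δ (s n) / 2 := by
    rw [abs_le]
    constructor <;> linarith [h4.1, h4.2, h5.1, h5.2]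
  linarith

end Pool.Agent.Tame
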